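import Pool.Agent.N858.PC.Abs

set_option autoImplicit false

/-!
Exponents at finitely many finite points and at infinity.
-/

open Finset

namespace Pool.Agent.N858.PC

open Pool.Agent.Y227.SS

variable {m n : ℕ}

lemma allExp_mul (a : ℤ) (lam : Fin m → Fin n → ℚ) (phi : Fin n → ℚ) :
    (fun x l => (a : ℝ) * ((allExp lam phi x l : ℚ) : ℝ)) =
      allExp (fun j l => (a : ℝ) * lam j l) (fun l => (a : ℝ) * phi l) := by
  funext x l
  rcases x with _ | j
  · simp only [allExp]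
    push_cast
    ring
  · rfl

theorem structured (m n : ℕ) (hn : 2 ≤ n) : ∃ B : ℕ, ∀ (lam : Fin m → Fin n → ℚ)
    (phi : Fin n → ℚ) (N : ℕ) (F : ℤ), 0 < N → ∑ j, ∑ l, lam j l = ∑ l, phi l + F →
    Rough B (allExp lam phi) →
    (∀ a : ℤ, IsCoprime a (N : ℤ) →
      SemistableWeights ℂ (fun j l => (a : ℝ) * lam j l) (fun l => (a : ℝ) * phi l)) →
    Structured B (allExp lam phi) ∧
    ((∀ a : ℤ, IsCoprime a (N : ℤ) →
      StableWeights ℂ (fun j l => (a : ℝ) * lam j l) (fun l => (a : ℝ) * phi l)) →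
      Spread B (allExp lam phi)) := by
  obtain ⟨B, hB⟩ := abs_main (Option (Fin m)) n (by omega)
  refine ⟨B, fun lam phi N F hN hF hR hSS => ?_⟩
  obtain ⟨q, hq, hrough, hd⟩ := hR
  have hFa : ∀ a : ℤ, ∑ j, ∑ l, (a : ℝ) * lam j l = ∑ l, (a : ℝ) * phi l + ((a * F : ℤ) : ℝ) := by
    intro a
    have h1 := congrArg (fun r : ℚ => (a : ℝ) * (r : ℝ)) hF
    push_cast at h1 ⊢
    simp only [← mul_sum]
    linarith
  have htr : ∃ w : ℤ, ∑ x, ∑ l, allExp lam phi x l = w := by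
    refine ⟨F, ?_⟩
    rw [Fintype.sum_option]
    simp only [allExp, sum_neg_distrib, hF]
    ring
  obtain ⟨h1, h2, h3⟩ := hB (allExp lam phi) q N hq hN hrough hd htr (by
    intro a ha
    rw [allExp_mul]
    exact lineSS_of (hSS a ha) _ (hFa a))
  refine ⟨⟨h1, h2⟩, fun hSt => h3 fun a ha => ?_⟩
  rw [allExp_mul]
  exact lineSt_of hn (hSt a ha) _ (hFa a)

end Pool.Agent.N858.PC
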