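import Pool.Agent.Y227.SS.Uniform
import Pool.Agent.N858.PC.Glue

set_option autoImplicit false

/-!
Systems with rough denominators.
-/

open Finset Polynomial

namespace Pool.Agent.N858.PC

open Pool.Agent.W432.PC Pool.Agent.W432.TC Pool.Agent.Y227.SS

universe u

lemma semistable_of_stable {n r : ℕ} {x : Fin n → Fin r → ℝ} {y : Fin r → ℝ}
    (h : StableWeights ℂ x y) : SemistableWeights ℂ x y := by
  obtain ⟨β, P, w, e, h1, h2, h3, h4, h5, h6, h7, -⟩ := h
  exact ⟨β, P, w, e, h1, h2, h3, h4, h5, h6, h7⟩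

lemma sum_exponents {R : Type u} [CommRing R] [IsDomain R] [CharZero R] {n r : ℕ}
    {A : Fin n → Matrix (Fin r) (Fin r) R} {lam : Fin n → Fin r → ℚ} {phi : Fin r → ℚ}
    (hlam : ∀ j, HasExponents (A j) (lam j)) (hphi : HasExponents (∑ j, A j) phi) :
    ∑ j, ∑ l, lam j l = ∑ l, phi l := by
  have := charZero_fraction (R := R)
  have h1 := HasExponents.trace hphi
  have h2 := fun j => HasExponents.trace (hlam j)
  rw [Matrix.trace_sum, map_sum, Finset.sum_congr rfl fun j _ => h2 j] at h1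
  have h4 : ((∑ j, ∑ l, lam j l : ℚ) : FractionRing R) =
      ((∑ l, phi l : ℚ) : FractionRing R) := by
    push_cast
    push_cast at h1
    exact h1
  exact_mod_cast h4

theorem final_sys (n r : ℕ) (hr : 2 ≤ r) :
    ∃ (ε : ℝ) (B : ℕ), 0 < ε ∧
      ∀ (R : Type u) [CommRing R] [IsDomain R] [CharZero R] [Algebra.FiniteType ℤ R]
        (α : Fin n → R) (A : Fin n → Matrix (Fin r) (Fin r) R)
        (lam : Fin n → Fin r → ℚ) (phi : Fin r → ℚ) (N : ℕ),
        (∀ i j, i ≠ j → IsUnit (α i - α j)) →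
        (∀ j, HasExponents (A j) (lam j)) → HasExponents (∑ j, A j) phi →
        0 < N → (∀ j l, ∃ m : ℤ, (N : ℚ) * lam j l = m) → (∀ l, ∃ m : ℤ, (N : ℚ) * phi l = m) →
        Rough B (allExp lam phi) →
        (Structured B (allExp lam phi) ∨ (BadClasses α A N ε 1 ∧ ¬ CondII α A)) ∧
        (AbsIrreducible α A → Spread B (allExp lam phi) ∨
          (∃ g : R, g ≠ 0 ∧ BadClasses α A N ε g) ∧ ¬ CondII α A) := by
  obtain ⟨ε, 𝒟, hε, -, huni⟩ := uniform.{u} n r
  obtain ⟨B, hB⟩ := structured n r hr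
  refine ⟨ε, B, hε, ?_⟩
  intro R _ _ _ _ α A lam phi N hα hlam hphi hN hNlam hNphi hR
  have hF : ∑ j, ∑ l, lam j l = ∑ l, phi l + ((0 : ℤ) : ℚ) := by
    rw [sum_exponents hlam hphi]; simp
  obtain ⟨h1, h2⟩ := huni R α A lam phi N hα hlam hphi hN hNlam hNphi
  constructor
  · rcases h1 with ⟨-, h⟩ | h
    · exact Or.inl (hB lam phi N 0 hN hF hR h).1
    · exact Or.inr h
  · intro hirr
    rcases h2 hirr with h | h
    · exact Or.inl ((hB lam phi N 0 hN hF hR fun a ha => semistable_of_stable (h a ha)).2 h)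
    · exact Or.inr h

end Pool.Agent.N858.PC
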