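import Pool.Agent.Y227.SO.Density
import Pool.Agent.N858.PC.Glue

set_option autoImplicit false

/-!
Scalar operators with rough denominators.
-/

open Finset Polynomial

namespace Pool.Agent.N858.PC

open Pool.Agent.W432.WB Pool.Agent.W432.TC Pool.Agent.W432.HK Pool.Agent.Y227.SS
open Pool.Agent.Y227.SO

variable {m n : ℕ}

/-- The Fuchs relation: the difference of the sums of the exponents is an integer. -/
lemma fuchs_int {b : Fin (n + 1) → ℤ[X]} {α : Fin m → AlgebraicClosure ℚ}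
    {lam : Fin m → Fin n → ℚ} {phi : Fin n → ℚ} (hm : 1 ≤ m)
    (hn : 1 ≤ n) (hF : FuchsianWith b α lam phi) :
    ∃ F : ℤ, ∑ j, ∑ l, lam j l = ∑ l, phi l + F := by
  obtain ⟨-, Q, hFu, hE⟩ := hF
  have h := fuchs (by omega) (by omega) hFu.inj hFu.last hFu.deg hE.1 hE.2
  refine ⟨n * ((n - 1) * (m - 1) : ℕ) - ∑ i, (cw m n i : ℤ), ?_⟩
  rw [sum_add_distrib, sum_const, card_univ, Fintype.card_fin, nsmul_eq_mul] at h
  push_cast at h ⊢
  linarith

lemma not_cond {b : Fin (n + 1) → ℤ[X]} {N : ℕ} (hN : 0 < N) {ε : ℝ} (hε : 0 < ε)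
    (h : BadPrimes b N ε) : ¬ Cond b := by
  intro hc
  obtain ⟨S, P₀, h1, h2⟩ := h
  have hφ : (0 : ℝ) < N.totient := by exact_mod_cast Nat.totient_pos.mpr hN
  have hS : S.Nonempty := by
    rw [← card_pos]
    have : (0 : ℝ) < S.card := (mul_pos hε hφ).trans_le h1
    exact_mod_cast this
  obtain ⟨v, hv⟩ := hS
  have : NeZero N := ⟨hN.ne'⟩
  set u : (ZMod N)ˣ := -v⁻¹ with hu
  set a : ℤ := ((u : ZMod N).val : ℤ) with ha
  have haz : ((a : ℤ) : ZMod N) = (u : ZMod N) := by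
    rw [ha]
    push_cast
    rw [ZMod.natCast_zmod_val]
  have hcop : IsCoprime a (N : ℤ) := by
    rw [ha, Nat.isCoprime_iff_coprime]
    exact (ZMod.val_coe_unit_coprime u)
  obtain ⟨p, hp1, hp2, hp3, hp4⟩ := cond_infinite hc hN hcop P₀
  refine h2 p hp1 ⟨v, hv, ?_⟩ hp3 hp4
  have h3 : ((a * p + 1 : ℤ) : ZMod N) = 0 := (ZMod.intCast_zmod_eq_zero_iff_dvd _ _).2 hp2
  push_cast at h3
  rw [haz, hu] at h3
  have h4 : ((v⁻¹ : (ZMod N)ˣ) : ZMod N) * (p : ZMod N) = 1 := by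
    push_cast at h3
    linear_combination -h3
  calc (p : ZMod N) = (v : ZMod N) * (((v⁻¹ : (ZMod N)ˣ) : ZMod N) * (p : ZMod N)) := by
        rw [← mul_assoc, Units.mul_inv, one_mul]
    _ = (v : ZMod N) := by rw [h4, mul_one]

theorem final_op (m n : ℕ) (hm : 1 ≤ m) (hn : 2 ≤ n) :
    ∃ (ε : ℝ) (B : ℕ), 0 < ε ∧ ∀ (b : Fin (n + 1) → ℤ[X]) (α : Fin m → AlgebraicClosure ℚ),
      (∀ lam phi, FuchsianWith b α lam phi → Rough B (allExp lam phi) →
        (¬ Cond b ∧ ¬ FewBad b ε ∧ ∀ N, CommonDen lam phi N → BadPrimes b N ε) ∨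
        (Structured B (allExp lam phi) ∧ (¬ Reducible b → Spread B (allExp lam phi)))) ∧
      (ZerosAmong b α → FewBad b ε → ∃ lam phi, FuchsianWith b α lam phi ∧
        (Rough B (allExp lam phi) →
          Structured B (allExp lam phi) ∧ (¬ Reducible b → Spread B (allExp lam phi)))) := by
  obtain ⟨ε, 𝒟, hε, -, hden⟩ := density m n hm (by omega)
  obtain ⟨B, hB⟩ := structured m n hn
  have key : ∀ (b : Fin (n + 1) → ℤ[X]) (α : Fin m → AlgebraicClosure ℚ) lam phi,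
      FuchsianWith b α lam phi → Rough B (allExp lam phi) → ∀ N, CommonDen lam phi N →
      ConjGood b lam phi N →
      (Structured B (allExp lam phi) ∧ (¬ Reducible b → Spread B (allExp lam phi))) := by
    intro b α lam phi hF hR N hN hG
    obtain ⟨F, hFu⟩ := fuchs_int hm (by omega) hF
    obtain ⟨h1, h2⟩ := hB lam phi N F hN.1 hFu hR fun a ha => (hG a ha).2.1
    exact ⟨h1, fun hred => h2 fun a ha => (hG a ha).2.2 hred⟩
  refine ⟨min (ε / 2) ε, B, lt_min (by positivity) hε, fun b α => ⟨fun lam phi hF hR => ?_,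
    fun hZ hfew => ?_⟩⟩
  · obtain ⟨N₀, hN₀⟩ := exists_commonDen lam phi
    by_cases hall : ∀ N, CommonDen lam phi N → BadPrimes b N ε
    · left
      refine ⟨not_cond hN₀.1 hε (hall N₀ hN₀), fun hfew => ?_, fun N hN => ?_⟩
      · exact (hall N₀ hN₀).dens hN₀.1 hε (hfew.mono (min_le_left _ _))
      · exact (hall N hN).mono (min_le_right _ _)
    · right
      push Not at hall
      obtain ⟨N, hN, hbad⟩ := hall
      rcases (hden b α).1 lam phi N hF hN with h | ⟨h, -⟩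
      · exact absurd h hbad
      · exact key b α lam phi hF hR N hN h
  · obtain ⟨lam, phi, hF, ⟨N, hN⟩, hG, -⟩ := (hden b α).2 hZ (hfew.mono (min_le_right _ _))
    exact ⟨lam, phi, hF, fun hR => key b α lam phi hF hR N hN (hG N hN)⟩

end Pool.Agent.N858.PC
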