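import Mathlib

set_option autoImplicit false

/-!
Relations between the exponents of operators and systems with rough denominators: definitions.
-/

open Finset

namespace Pool.Agent.N858.PC

/-- The exponents at all the points: `lam j` at the finite points, `-phi` at infinity. -/
def allExp {R : Type*} [Neg R] {m n : ℕ} (x : Fin m → Fin n → R) (y : Fin n → R) :
    Option (Fin m) → Fin n → R
  | some j => x j
  | none => fun l => -y l

section defs

variable {X : Type*} [Fintype X] {n : ℕ}

/-- A relation of degree one between the exponents `e x l`: integers `c x l` of absolute value at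
most `B`, vanishing on `Ω`, with sum one at every point, such that `∑ c x l * e x l` is an
integer. -/
def DegreeOne (B : ℕ) (e : X → Fin n → ℚ) (Ω : Finset (X × Fin n)) : Prop :=
  ∃ c : X → Fin n → ℤ, (∀ x l, |c x l| ≤ B) ∧ (∀ t ∈ Ω, c t.1 t.2 = 0) ∧ (∀ x, ∑ l, c x l = 1) ∧
    ∃ w : ℤ, ∑ x, ∑ l, (c x l : ℚ) * e x l = w

/-- A nonnegative relation of degree `M`, `1 ≤ M ≤ B`, between the exponents `e x l`: natural
numbers `p x l`, vanishing on `Ω`, with sum `M` at every point, such that `∑ p x l * e x l` is an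
integer. -/
def Nonneg (B : ℕ) (e : X → Fin n → ℚ) (Ω : Finset (X × Fin n)) : Prop :=
  ∃ (M : ℕ) (p : X → Fin n → ℕ), 1 ≤ M ∧ M ≤ B ∧ (∀ t ∈ Ω, p t.1 t.2 = 0) ∧
    (∀ x, ∑ l, p x l = M) ∧ ∃ w : ℤ, ∑ x, ∑ l, (p x l : ℚ) * e x l = w

/-- The same with at least two of the `p x l` not zero at one of the points `x`. -/
def NonnegTwo (B : ℕ) (e : X → Fin n → ℚ) (Ω : Finset (X × Fin n)) : Prop :=
  ∃ (M : ℕ) (p : X → Fin n → ℕ), 1 ≤ M ∧ M ≤ B ∧ (∀ t ∈ Ω, p t.1 t.2 = 0) ∧
    (∀ x, ∑ l, p x l = M) ∧ (∃ w : ℤ, ∑ x, ∑ l, (p x l : ℚ) * e x l = w) ∧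
    ∃ x l l', l ≠ l' ∧ p x l ≠ 0 ∧ p x l' ≠ 0

/-- Relations of degree one through given exponents at two points: for any two points `x ≠ y` there
is a permutation `σ` such that for every `i` there is a relation of degree one, with coefficients of
absolute value at most `B`, in which `e x i` is the only exponent at `x` and `e y (σ i)` is the only
exponent at `y`, both with coefficient one. -/
def PairRel (B : ℕ) (e : X → Fin n → ℚ) : Prop :=
  ∀ x y, x ≠ y → ∃ σ : Equiv.Perm (Fin n), ∀ i, ∃ c : X → Fin n → ℤ, (∀ z l, |c z l| ≤ B) ∧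
    (∀ l, c x l = if l = i then 1 else 0) ∧ (∀ l, c y l = if l = σ i then 1 else 0) ∧
    (∀ z, ∑ l, c z l = 1) ∧ ∃ w : ℤ, ∑ z, ∑ l, (c z l : ℚ) * e z l = w

/-- The differences of the exponents at every point have a common denominator `q` all of whose prime
factors are greater than `B`. -/
def Rough (B : ℕ) (e : X → Fin n → ℚ) : Prop :=
  ∃ q : ℕ, 0 < q ∧ (∀ p : ℕ, p.Prime → p ∣ q → B < p) ∧
    ∀ x l l', ∃ w : ℤ, (q : ℚ) * (e x l - e x l') = w

/-- After the deletion of any set `Ω` of less than `n` exponents there remain a relation of degree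
one and a nonnegative relation, and there are relations of degree one through given exponents at two
points. -/
def Structured (B : ℕ) (e : X → Fin n → ℚ) : Prop :=
  (∀ Ω : Finset (X × Fin n), Ω.card < n → DegreeOne B e Ω ∧ Nonneg B e Ω) ∧ PairRel B e

/-- After the deletion of any set `Ω` of less than `n` exponents there remains a nonnegative
relation with at least two exponents at one of the points. -/
def Spread (B : ℕ) (e : X → Fin n → ℚ) : Prop :=
  ∀ Ω : Finset (X × Fin n), Ω.card < n → NonnegTwo B e Ω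

end defs

end Pool.Agent.N858.PC
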