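import Pool.Agent.N858.PC.Pair

set_option autoImplicit false

/-!
Exponents with rough denominators all of whose conjugates satisfy the inequalities for line
subbundles: bounded relations avoiding any given small set of exponents.
-/

open Finset Filter

namespace Pool.Agent.N858.PC

section main

variable {X : Type*} [Fintype X] [DecidableEq X] {n : ℕ}

/-- The exponents are, up to a twist, in `(1/q) ℤ`. -/
lemma normalize [Nonempty X] (hn : 0 < n) {e : X → Fin n → ℚ} {q : ℕ} (hq : 0 < q)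
    (hcop : Nat.Coprime n q) (hd : ∀ x l l', ∃ w : ℤ, (q : ℚ) * (e x l - e x l') = w)
    (ht : ∃ w : ℤ, ∑ x, ∑ l, e x l = w) :
    ∃ (E : X → Fin n → ℚ) (ε : X → ℚ), (∀ x l, e x l = E x l + ε x) ∧
      (∀ x l, ∃ z : ℤ, (q : ℚ) * E x l = z) ∧ ∃ k : ℤ, (n : ℚ) * ∑ x, ε x = k := by
  obtain ⟨x₀⟩ := ‹Nonempty X›
  set l₀ : Fin n := ⟨0, hn⟩
  obtain ⟨w, hw⟩ := ht
  choose D hD using fun x l => hd x l l₀
  obtain ⟨r, s, hrs⟩ := Nat.isCoprime_iff_coprime.2 hcop
  have hq' : (q : ℚ) ≠ 0 := by exact_mod_cast hq.ne'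
  have hn' : (n : ℚ) ≠ 0 := by exact_mod_cast hn.ne'
  set K : ℤ := q * w - ∑ x, ∑ l, D x l with hK
  set c : ℚ := K * r / q with hc
  have h1 : (n : ℚ) * q * ∑ x, e x l₀ = K := by
    have h2 : ∀ x, (n : ℚ) * q * e x l₀ = q * (∑ l, e x l) - ∑ l, (D x l : ℚ) := by
      intro x
      have h3 : ∀ l, (D x l : ℚ) = q * e x l - q * e x l₀ := by
        intro l
        rw [← hD]; ring
      simp only [h3, sum_sub_distrib, sum_const, card_univ, Fintype.card_fin, nsmul_eq_mul, mul_sum]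
      ring
    rw [mul_sum, sum_congr rfl fun x _ => h2 x, sum_sub_distrib, ← mul_sum, hw, hK]
    push_cast
    ring
  refine ⟨fun x l => (e x l - e x l₀) + if x = x₀ then c else 0,
    fun x => e x l₀ - if x = x₀ then c else 0, fun x l => by ring, fun x l => ?_, K * s, ?_⟩
  · refine ⟨D x l + if x = x₀ then K * r else 0, ?_⟩
    rw [mul_add, hD]
    push_cast
    split_ifs
    · rw [hc]; field_simp
    · simp
  · rw [sum_sub_distrib, sum_ite_eq', if_pos (mem_univ _)]
    have h2 : (r : ℚ) * n + s * q = 1 := by exact_mod_cast hrs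
    have h3 : ∑ x, e x l₀ = K / (n * q) := by
      rw [eq_div_iff (mul_ne_zero hn' hq'), ← h1]
      ring
    rw [h3, hc]
    push_cast
    field_simp
    linear_combination (-(K : ℚ)) * h2

lemma int_of_degree (S : Seq X n) (F : Ultrafilter ℕ) (hF : (F : Filter ℕ) ≤ atTop)
    [Nonempty X] (hn : 0 < n) {c : X × Fin n → ℤ} (hc : c ∈ S.R F) {d : ℤ}
    (hd : ∀ x, ∑ l, c (x, l) = d) :
    ∀ᶠ j in (F : Filter ℕ), ∃ w : ℤ, ∑ x, ∑ l, (c (x, l) : ℚ) * S.e j x l = w := by
  filter_upwards [mem_rel.1 hc, S.eps_int F hF hn] with j h1 h2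
  obtain ⟨z, hz⟩ := h1
  obtain ⟨k, hk⟩ := h2
  refine ⟨z + d * k, ?_⟩
  push_cast
  rw [← hz, ← hk, Fintype.sum_prod_type, mul_sum, ← sum_add_distrib]
  refine sum_congr rfl fun x _ => ?_
  rw [← hd x]
  push_cast
  rw [sum_mul, ← sum_add_distrib]
  refine sum_congr rfl fun l _ => ?_
  rw [S.he]
  ring

theorem abs_main (X : Type*) [Fintype X] [DecidableEq X] [Nonempty X] (n : ℕ) (hn : 0 < n) :
    ∃ B : ℕ, ∀ (e : X → Fin n → ℚ) (q N : ℕ), 0 < q → 0 < N →
      (∀ p : ℕ, p.Prime → p ∣ q → B < p) →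
      (∀ x l l', ∃ w : ℤ, (q : ℚ) * (e x l - e x l') = w) →
      (∃ w : ℤ, ∑ x, ∑ l, e x l = w) →
      (∀ a : ℤ, IsCoprime a (N : ℤ) → LineSS fun x l => (a : ℝ) * e x l) →
      (∀ Ω : Finset (X × Fin n), Ω.card < n → DegreeOne B e Ω ∧ Nonneg B e Ω) ∧
      PairRel B e ∧
      ((∀ a : ℤ, IsCoprime a (N : ℤ) → LineSt fun x l => (a : ℝ) * e x l) →
        ∀ Ω : Finset (X × Fin n), Ω.card < n → NonnegTwo B e Ω) := by
  classical
  by_contra hcon
  push Not at hcon
  choose e q N hq hN hrough hd ht hSS hfail using fun j : ℕ => hcon (j + n)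
  have hnorm : ∀ j, ∃ (E : X → Fin n → ℚ) (ε : X → ℚ), (∀ x l, e j x l = E x l + ε x) ∧
      (∀ x l, ∃ z : ℤ, (q j : ℚ) * E x l = z) ∧ ∃ k : ℤ, (n : ℚ) * ∑ x, ε x = k := fun j =>
    normalize hn (hq j) (coprime_rough (hrough j) hn (by omega)) (hd j) (ht j)
  choose E ε he hE hε using hnorm
  let S : Seq X n :=
    { e := e, E := E, ε := ε, q := q, N := N, hq := hq, hN := hN
      rough := fun j p hp hpq => by have := hrough j p hp hpq; omega
      he := he, hE := hE, hε := hε, htr := ht, hSS := hSS }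
  set F : Ultrafilter ℕ := Filter.hyperfilter ℕ with hFdef
  have hF : (F : Filter ℕ) ≤ atTop := Nat.hyperfilter_le_atTop
  have h1 : ∀ᶠ j in (F : Filter ℕ), ∀ Ω ∈ (univ : Finset (Finset (X × Fin n))), Ω.card < n →
      DegreeOne (j + n) (e j) Ω ∧ Nonneg (j + n) (e j) Ω := by
    refine (Filter.eventually_all_finset _).2 fun Ω _ => ?_
    by_cases hΩ : Ω.card < n
    · obtain ⟨c, hc, hcΩ, hc1⟩ := S.degOne F hF hn Ω hΩ
      obtain ⟨M, p, hM, hpΩ, hpM, hpR⟩ := S.cover F hF hn Ω hΩ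
      filter_upwards [int_of_degree S F hF hn hc hc1,
        int_of_degree S F hF hn hpR (d := M) (fun x => by exact_mod_cast hpM x),
        hF (eventually_ge_atTop (∑ t, (c t).natAbs)), hF (eventually_ge_atTop M)] with j g1 g2 g3 g4 _
      refine ⟨⟨fun x l => c (x, l), fun x l => ?_, fun t ht => hcΩ t ht, hc1, g1⟩,
        ⟨M, fun x l => p (x, l), hM, by omega, fun t ht => hpΩ t ht, hpM, ?_⟩⟩
      · have h2 : (c (x, l)).natAbs ≤ ∑ t, (c t).natAbs :=
          single_le_sum (f := fun t => (c t).natAbs) (fun _ _ => Nat.zero_le _) (mem_univ _)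
        have h5 : (c (x, l)).natAbs ≤ j + n := h2.trans (by omega)
        have h6 : |c (x, l)| = ((c (x, l)).natAbs : ℤ) := Int.abs_eq_natAbs _
        show |c (x, l)| ≤ ((j + n : ℕ) : ℤ)
        rw [h6]
        exact_mod_cast h5
      · obtain ⟨w, hw⟩ := g2
        exact ⟨w, by rw [← hw]; push_cast; rfl⟩
    · exact Eventually.of_forall fun j h => absurd h hΩ
  have h3 : ∀ᶠ j in (F : Filter ℕ), PairRel (j + n) (e j) := by
    refine Filter.eventually_all.2 fun x => Filter.eventually_all.2 fun y => ?_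
    by_cases hxy : x ≠ y
    · obtain ⟨σ, hσ⟩ := S.pair F hF hn hxy
      have h4 : ∀ᶠ j in (F : Filter ℕ), ∀ i, ∃ c : X → Fin n → ℤ,
          (∀ z l, |c z l| ≤ ((j + n : ℕ) : ℤ)) ∧
          (∀ l, c x l = if l = i then 1 else 0) ∧ (∀ l, c y l = if l = σ i then 1 else 0) ∧
          (∀ z, ∑ l, c z l = 1) ∧ ∃ w : ℤ, ∑ z, ∑ l, (c z l : ℚ) * e j z l = w := by
        refine Filter.eventually_all.2 fun i => ?_
        obtain ⟨c, hc, hcx, hcy, hc1⟩ := hσ i
        filter_upwards [int_of_degree S F hF hn hc hc1,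
          hF (eventually_ge_atTop (∑ t, (c t).natAbs))] with j g1 g3
        refine ⟨fun x l => c (x, l), fun x l => ?_, hcx, hcy, hc1, g1⟩
        have h2 : (c (x, l)).natAbs ≤ ∑ t, (c t).natAbs :=
          single_le_sum (f := fun t => (c t).natAbs) (fun _ _ => Nat.zero_le _) (mem_univ _)
        have h5 : (c (x, l)).natAbs ≤ j + n := h2.trans (by omega)
        have h6 : |c (x, l)| = ((c (x, l)).natAbs : ℤ) := Int.abs_eq_natAbs _
        show |c (x, l)| ≤ ((j + n : ℕ) : ℤ)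
        rw [h6]
        exact_mod_cast h5
      filter_upwards [h4] with j hj _
      exact ⟨σ, hj⟩
    · exact Eventually.of_forall fun j h => absurd h hxy
  have h2 : ∀ᶠ j in (F : Filter ℕ),
      (∀ a : ℤ, IsCoprime a (N j : ℤ) → LineSt fun x l => (a : ℝ) * e j x l) →
      ∀ Ω ∈ (univ : Finset (Finset (X × Fin n))), Ω.card < n → NonnegTwo (j + n) (e j) Ω := by
    by_cases hSt : ∀ᶠ j in (F : Filter ℕ),
      (∀ a : ℤ, IsCoprime a (N j : ℤ) → LineSt fun x l => (a : ℝ) * e j x l)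
    · have h3 : ∀ᶠ j in (F : Filter ℕ), ∀ Ω ∈ (univ : Finset (Finset (X × Fin n))), Ω.card < n →
          NonnegTwo (j + n) (e j) Ω := by
        refine (Filter.eventually_all_finset _).2 fun Ω _ => ?_
        by_cases hΩ : Ω.card < n
        · obtain ⟨M, p, hM, hpΩ, hpM, hpR, htwo⟩ := S.cover_irr F hF hn hSt Ω hΩ
          filter_upwards [int_of_degree S F hF hn hpR (d := M) (fun x => by exact_mod_cast hpM x),
            hF (eventually_ge_atTop M)] with j g2 g4 _
          refine ⟨M, fun x l => p (x, l), hM, by omega, fun t ht => hpΩ t ht, hpM, ?_, htwo⟩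
          obtain ⟨w, hw⟩ := g2
          exact ⟨w, by rw [← hw]; push_cast; rfl⟩
        · exact Eventually.of_forall fun j h => absurd h hΩ
      filter_upwards [h3] with j hj _
      exact hj
    · rw [← Ultrafilter.eventually_not] at hSt
      filter_upwards [hSt] with j hj h
      exact absurd h hj
  obtain ⟨j, ⟨g1, g3⟩, g2⟩ := ((h1.and h3).and h2).exists
  obtain ⟨hSt, Ω, hΩ, hno⟩ := hfail j (fun Ω hΩ => g1 Ω (mem_univ _) hΩ) g3
  exact hno (g2 hSt Ω (mem_univ _) hΩ)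

end main

end Pool.Agent.N858.PC
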