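import Mathlib

set_option autoImplicit false

/-!
Families of real valued additive maps which agree modulo the integers, up to permutations, at every
point: the permutation can be chosen independently of the point.
-/

open Finset

namespace Pool.Agent.N858.PC

lemma perm_of_count {n : ℕ} {β : Type*} [DecidableEq β] (f g : Fin n → β)
    (h : ∀ b, (univ.filter fun l => b = f l).card ≤ (univ.filter fun l => b = g l).card) :
    ∃ σ : Equiv.Perm (Fin n), ∀ l, g (σ l) = f l := by
  have h1 : (univ : Finset (Fin n)).val.map f = (univ : Finset (Fin n)).val.map g := by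
    refine Multiset.eq_of_le_of_card_le ?_ (by simp)
    rw [Multiset.le_iff_count]
    intro b
    rw [Multiset.count_map, Multiset.count_map]
    exact h b
  have h2 : ∀ b, Fintype.card {l // f l = b} = Fintype.card {l // g l = b} := by
    intro b
    have h3 := congrArg (Multiset.count b) h1
    rw [Multiset.count_map, Multiset.count_map] at h3
    rw [Fintype.card_subtype, Fintype.card_subtype]
    simpa only [eq_comm, Finset.card, Finset.filter] using h3
  refine ⟨(Equiv.sigmaFiberEquiv f).symm.trans ((Equiv.sigmaCongrRight fun b =>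
    Fintype.equivOfCardEq (h2 b)).trans (Equiv.sigmaFiberEquiv g)), fun l => ?_⟩
  simp only [Equiv.trans_apply]
  exact (Fintype.equivOfCardEq (h2 (f l)) ⟨l, rfl⟩).2

section

variable {A : Type*} [AddCommGroup A]

/-- The character of an additive map. -/
noncomputable def ch (φ : A →+ ℝ) : Multiplicative A →* ℂ where
  toFun t := Complex.exp (2 * Real.pi * Complex.I * (φ (Multiplicative.toAdd t) : ℝ))
  map_one' := by simp
  map_mul' := by
    intro s t
    rw [toAdd_mul, map_add, ← Complex.exp_add]
    congr 1
    push_cast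
    ring

lemma ch_eq (φ ψ : A →+ ℝ) (t : A) :
    ch φ (Multiplicative.ofAdd t) = ch ψ (Multiplicative.ofAdd t) ↔ ∃ z : ℤ, φ t - ψ t = z := by
  show Complex.exp _ = Complex.exp _ ↔ _
  rw [Complex.exp_eq_exp_iff_exists_int]
  have h2 : (2 * Real.pi * Complex.I : ℂ) ≠ 0 := Complex.two_pi_I_ne_zero
  refine exists_congr fun z => ?_
  rw [toAdd_ofAdd]
  constructor
  · intro h
    have h3 : (2 * Real.pi * Complex.I : ℂ) * (φ t : ℝ) =
        (2 * Real.pi * Complex.I : ℂ) * ((ψ t : ℝ) + z) := by
      rw [h]; ring
    have h4 := mul_left_cancel₀ h2 h3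
    have h5 : ((φ t : ℝ) : ℂ) = ((ψ t + z : ℝ) : ℂ) := by rw [h4]; push_cast; ring
    have h6 := Complex.ofReal_injective h5
    linarith
  · intro h
    have h3 : φ t = ψ t + z := by linarith
    rw [h3]
    push_cast
    ring

open Classical in
lemma dedekind {n : ℕ} (φ ψ : Fin n → A →+ ℝ)
    (h : ∀ (t : A) (b : ℝ), (univ.filter fun l => ∃ z : ℤ, φ l t - b = z).card ≤
      (univ.filter fun l => ∃ z : ℤ, ψ l t - b = z).card) :
    ∃ σ : Equiv.Perm (Fin n), ∀ l t, ∃ z : ℤ, φ l t - ψ (σ l) t = z := by
  have h0 : ∀ t : A, ∑ l, ch (φ l) (Multiplicative.ofAdd t) =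
      ∑ l, ch (ψ l) (Multiplicative.ofAdd t) := by
    intro t
    obtain ⟨σ, hσ⟩ := perm_of_count (fun l => ch (φ l) (Multiplicative.ofAdd t))
      (fun l => ch (ψ l) (Multiplicative.ofAdd t)) (by
        intro b
        by_cases hb : ∃ l, b = ch (φ l) (Multiplicative.ofAdd t)
        · obtain ⟨l₀, rfl⟩ := hb
          have h1 := h t (φ l₀ t)
          have e1 : ∀ l, (ch (φ l₀) (Multiplicative.ofAdd t) = ch (φ l) (Multiplicative.ofAdd t)) ↔
              ∃ z : ℤ, φ l t - φ l₀ t = z := by
            intro l
            rw [← ch_eq]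
            exact eq_comm
          have e2 : ∀ l, (ch (φ l₀) (Multiplicative.ofAdd t) = ch (ψ l) (Multiplicative.ofAdd t)) ↔
              ∃ z : ℤ, ψ l t - φ l₀ t = z := by
            intro l
            rw [eq_comm, ch_eq]
          simp only [e1, e2]
          exact h1
        · push Not at hb
          rw [filter_eq_empty_iff.2 fun l _ => hb l]
          simp)
    rw [← Equiv.sum_comp σ (fun l => ch (ψ l) (Multiplicative.ofAdd t))]
    exact sum_congr rfl fun l _ => (hσ l).symm
  have hli := linearIndependent_monoidHom (Multiplicative A) ℂ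
  have h1 : (∑ l, Finsupp.single (ch (φ l)) (1 : ℂ)) = ∑ l, Finsupp.single (ch (ψ l)) (1 : ℂ) := by
    apply hli
    rw [map_sum, map_sum]
    simp only [Finsupp.linearCombination_single, one_smul]
    funext t
    have := h0 (Multiplicative.toAdd t)
    simpa only [Finset.sum_apply, ofAdd_toAdd] using this
  obtain ⟨σ, hσ⟩ := perm_of_count (fun l => ch (φ l)) (fun l => ch (ψ l)) (by
    intro b
    have h2 := DFunLike.congr_fun h1 b
    simp only [Finsupp.finsetSum_apply, Finsupp.single_apply] at h2
    simp only [sum_ite, sum_const_zero, add_zero, sum_const, nsmul_eq_mul, mul_one] at h2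
    have h3 : ((univ.filter fun l => ch (φ l) = b).card : ℂ) =
      ((univ.filter fun l => ch (ψ l) = b).card : ℂ) := h2
    have h4 : (univ.filter fun l => ch (φ l) = b).card =
      (univ.filter fun l => ch (ψ l) = b).card := by exact_mod_cast h3
    simp only [eq_comm (a := b)]
    exact h4.le)
  refine ⟨σ, fun l t => ?_⟩
  rw [← ch_eq, hσ l]

end

end Pool.Agent.N858.PC
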