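import Mathlib

set_option autoImplicit false

/-!
Gordan's alternative over the rational numbers and a version for products of simplices.
-/

open Finset

namespace Pool.Agent.N858.PC

universe u

/-- Gordan's alternative: finitely many vectors of a rational vector space satisfy a nontrivial
relation with nonnegative coefficients, or there is a linear form which is positive at all of
them. -/
theorem gordan_fin : ∀ (s : ℕ) (V : Type u) [AddCommGroup V] [Module ℚ V] (w : Fin s → V),
    (∃ c : Fin s → ℚ, (∀ i, 0 ≤ c i) ∧ c ≠ 0 ∧ ∑ i, c i • w i = 0) ∨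
      ∃ f : V →ₗ[ℚ] ℚ, ∀ i, 0 < f (w i) := by
  intro s
  induction s with
  | zero => intro V _ _ w; exact Or.inr ⟨0, fun i => i.elim0⟩
  | succ s ih =>
    intro V _ _ w
    by_cases h0 : w 0 = 0
    · left
      refine ⟨Pi.single 0 1, fun i => ?_, ?_, ?_⟩
      · by_cases hi : i = 0
        · subst hi; simp
        · simp [Pi.single_eq_of_ne hi]
      · intro h
        have := congrFun h 0
        simp at this
      · rw [Finset.sum_eq_single 0]
        · simp [h0]
        · intro i _ hi; simp [Pi.single_eq_of_ne hi]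
        · simp
    set U : Submodule ℚ V := Submodule.span ℚ {w 0} with hU
    rcases ih (V ⧸ U) (fun i => U.mkQ (w i.succ)) with ⟨c, hc0, hcne, hc⟩ | ⟨f, hf⟩
    · have hmem : ∑ i, c i • w i.succ ∈ U := by
        rw [← Submodule.ker_mkQ U, LinearMap.mem_ker, map_sum]
        simpa only [map_smul] using hc
      obtain ⟨μ, hμ⟩ := Submodule.mem_span_singleton.1 hmem
      rcases le_or_gt μ 0 with hμ0 | hμ0
      · left
        refine ⟨Fin.cons (-μ) c, ?_, ?_, ?_⟩
        · intro i
          refine Fin.cases ?_ (fun i => ?_) i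
          · simpa using hμ0
          · simpa using hc0 i
        · intro h
          apply hcne
          funext i
          have := congrFun h i.succ
          simpa using this
        · rw [Fin.sum_univ_succ]
          simp only [Fin.cons_zero, Fin.cons_succ]
          rw [← hμ]
          simp
      · rcases ih V (fun i => w i.succ) with ⟨c', hc0', hcne', hc'⟩ | ⟨f, hf⟩
        · left
          refine ⟨Fin.cons 0 c', ?_, ?_, ?_⟩
          · intro i
            refine Fin.cases ?_ (fun i => ?_) i
            · simp
            · simpa using hc0' i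
          · intro h
            apply hcne'
            funext i
            have := congrFun h i.succ
            simpa using this
          · rw [Fin.sum_univ_succ]
            simp only [Fin.cons_zero, Fin.cons_succ]
            rw [hc']
            simp
        · right
          refine ⟨f, ?_⟩
          intro i
          refine Fin.cases ?_ (fun i => hf i) i
          have h1 : μ * f (w 0) = ∑ i, c i * f (w i.succ) := by
            have := congrArg f hμ
            rw [map_smul, map_sum] at this
            simpa only [map_smul, smul_eq_mul] using this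
          have h2 : 0 < ∑ i, c i * f (w i.succ) := by
            obtain ⟨i, hi⟩ := Function.ne_iff.1 hcne
            refine Finset.sum_pos' (fun j _ => mul_nonneg (hc0 j) (hf j).le) ⟨i, mem_univ _, ?_⟩
            exact mul_pos (lt_of_le_of_ne (hc0 i) (Ne.symm hi)) (hf i)
          rw [← h1] at h2
          exact (mul_pos_iff_of_pos_left hμ0).1 h2
    · right
      have hne : ¬ ∀ φ : Module.Dual ℚ V, φ (w 0) = 0 := fun h =>
        h0 ((Module.forall_dual_apply_eq_zero_iff ℚ (w 0)).1 h)
      push Not at hne
      obtain ⟨φ, hφ⟩ := hne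
      set g : V →ₗ[ℚ] ℚ := (φ (w 0))⁻¹ • φ with hg
      have hg0 : g (w 0) = 1 := by
        rw [hg, LinearMap.smul_apply, smul_eq_mul, inv_mul_cancel₀ hφ]
      set T : ℚ := 1 + ∑ i : Fin s, |g (w i.succ)| / f (U.mkQ (w i.succ)) with hT
      have hT1 : 1 ≤ T := by
        rw [hT]
        have : 0 ≤ ∑ i : Fin s, |g (w i.succ)| / f (U.mkQ (w i.succ)) :=
          sum_nonneg fun i _ => div_nonneg (abs_nonneg _) (hf i).le
        linarith
      have hT0 : 0 < T := by linarith
      refine ⟨f.comp U.mkQ + T⁻¹ • g, fun i => ?_⟩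
      refine Fin.cases ?_ (fun i => ?_) i
      · have : U.mkQ (w 0) = 0 := by
          rw [Submodule.mkQ_apply, Submodule.Quotient.mk_eq_zero]
          exact Submodule.mem_span_singleton_self _
        simp only [LinearMap.add_apply, LinearMap.comp_apply, this, map_zero, zero_add,
          LinearMap.smul_apply, hg0, smul_eq_mul, mul_one]
        positivity
      · simp only [LinearMap.add_apply, LinearMap.comp_apply, LinearMap.smul_apply, smul_eq_mul]
        have h1 := hf i
        have h2 : |g (w i.succ)| / f (U.mkQ (w i.succ)) < T := by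
          have : |g (w i.succ)| / f (U.mkQ (w i.succ)) ≤
              ∑ i : Fin s, |g (w i.succ)| / f (U.mkQ (w i.succ)) :=
            single_le_sum (f := fun i : Fin s => |g (w i.succ)| / f (U.mkQ (w i.succ)))
              (fun i _ => div_nonneg (abs_nonneg _) (hf i).le) (mem_univ i)
          rw [hT]; linarith
        rw [div_lt_iff₀ h1] at h2
        have h3 : |T⁻¹ * g (w i.succ)| < f (U.mkQ (w i.succ)) := by
          rw [abs_mul, abs_of_pos (inv_pos.2 hT0), inv_mul_lt_iff₀ hT0]
          exact h2
        have := abs_lt.1 h3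
        linarith [this.1]

/-- Gordan's alternative for families indexed by a finite type. -/
theorem gordan {ι : Type*} [Fintype ι] {V : Type u} [AddCommGroup V] [Module ℚ V] (w : ι → V) :
    (∃ c : ι → ℚ, (∀ i, 0 ≤ c i) ∧ c ≠ 0 ∧ ∑ i, c i • w i = 0) ∨
      ∃ f : V →ₗ[ℚ] ℚ, ∀ i, 0 < f (w i) := by
  classical
  let e := Fintype.equivFin ι
  rcases gordan_fin (Fintype.card ι) V (fun i => w (e.symm i)) with ⟨c, h1, h2, h3⟩ | ⟨f, hf⟩
  · left
    refine ⟨fun i => c (e i), fun i => h1 _, ?_, ?_⟩
    · intro h
      apply h2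
      funext i
      have := congrFun h (e.symm i)
      simpa using this
    · rw [← h3, ← Equiv.sum_comp e]
      simp
  · right
    exact ⟨f, fun i => by simpa using hf (e i)⟩

/-- Gordan's alternative for products of simplices. -/
theorem gordan_prod {X L : Type*} [Fintype X] [DecidableEq X] [Fintype L] [DecidableEq L]
    {V : Type u} [AddCommGroup V] [Module ℚ V] (A : X → Finset L) (hA : ∀ x, (A x).Nonempty)
    (v : X → L → V) :
    (∃ p : X → L → ℚ, (∀ x l, 0 ≤ p x l) ∧ (∀ x, ∀ l ∉ A x, p x l = 0) ∧ (∀ x, ∑ l, p x l = 1) ∧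
      ∑ x, ∑ l, p x l • v x l = 0) ∨
      ∃ (f : V →ₗ[ℚ] ℚ) (s : X → ℚ), 0 < ∑ x, s x ∧ ∀ x, ∀ l ∈ A x, s x ≤ f (v x l) := by
  classical
  rcases gordan (ι := {φ : X → L // ∀ x, φ x ∈ A x}) (fun φ => ∑ x, v x (φ.1 x)) with
    ⟨c, h1, h2, h3⟩ | ⟨f, hf⟩
  · left
    set T := ∑ φ, c φ with hT
    have hT0 : 0 < T := by
      obtain ⟨i, hi⟩ := Function.ne_iff.1 h2
      exact sum_pos' (fun j _ => h1 j) ⟨i, mem_univ _, lt_of_le_of_ne (h1 i) (Ne.symm hi)⟩
    refine ⟨fun x l => T⁻¹ * ∑ φ : {φ : X → L // ∀ x, φ x ∈ A x}, if φ.1 x = l then c φ else 0,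
      fun x l => ?_, fun x l hl => ?_, fun x => ?_, ?_⟩
    · refine mul_nonneg (inv_nonneg.2 hT0.le) (sum_nonneg fun φ _ => ?_)
      split_ifs
      · exact h1 φ
      · exact le_rfl
    · have h5 : ∑ φ : {φ : X → L // ∀ x, φ x ∈ A x}, (if φ.1 x = l then c φ else 0) = 0 := by
        refine sum_eq_zero fun φ _ => ?_
        rw [if_neg]
        rintro rfl
        exact hl (φ.2 x)
      beta_reduce
      rw [h5, mul_zero]
    · rw [← mul_sum, sum_comm]
      simp only [sum_ite_eq, mem_univ, if_true]
      rw [← hT, inv_mul_cancel₀ hT0.ne']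
    · have h4 : ∀ x, ∑ l, (T⁻¹ * ∑ φ : {φ : X → L // ∀ x, φ x ∈ A x},
          if φ.1 x = l then c φ else 0) • v x l = T⁻¹ • ∑ φ : {φ : X → L // ∀ x, φ x ∈ A x},
            c φ • v x (φ.1 x) := by
        intro x
        simp only [mul_smul, ← smul_sum, sum_smul]
        rw [sum_comm]
        congr 1
        refine sum_congr rfl fun φ _ => ?_
        rw [sum_eq_single (φ.1 x)]
        · simp
        · intro l _ hl
          rw [if_neg (Ne.symm hl), zero_smul]
        · simp
      rw [sum_congr rfl fun x _ => h4 x, ← smul_sum, sum_comm]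
      simp only [← smul_sum]
      rw [h3, smul_zero]
  · right
    have hmin : ∀ x, ∃ l ∈ A x, ∀ l' ∈ A x, f (v x l) ≤ f (v x l') := fun x =>
      exists_min_image (A x) (fun l => f (v x l)) (hA x)
    choose φ hφ hmin using hmin
    refine ⟨f, fun x => f (v x (φ x)), ?_, fun x l hl => hmin x l hl⟩
    have := hf ⟨φ, hφ⟩
    simpa [map_sum] using this

end Pool.Agent.N858.PC
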