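import Pool.Agent.N858.PC.Seq

set_option autoImplicit false

/-!
The irreducible case: there are nonnegative relations which are not concentrated on one exponent at
each point.
-/

open Finset Filter

namespace Pool.Agent.N858.PC

namespace Seq

variable {X : Type*} [Fintype X] [DecidableEq X] {n : ℕ} (S : Seq X n) (F : Ultrafilter ℕ)

/-- If the conjugates satisfy the strict inequalities, then for a relation of degree one and every
set of less than `n` other exponents there is no point of the annihilator at which the exponents of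
the relation are the least ones apart from the set. -/
lemma no_sep [Nonempty X] (hF : (F : Filter ℕ) ≤ atTop) (hn : 0 < n)
    (hSt : ∀ᶠ j in (F : Filter ℕ), ∀ a : ℤ, IsCoprime a (S.N j : ℤ) →
      LineSt fun x l => (a : ℝ) * S.e j x l)
    (Ω : Finset (X × Fin n)) (hΩ : Ω.card < n) (κ : X → Fin n)
    (hκ : (fun t : X × Fin n => if t.2 = κ t.1 then (1 : ℤ) else 0) ∈ S.R F)
    (f : ((X × Fin n → ℚ) ⧸ S.U F) →ₗ[ℚ] ℚ)
    (hf : ∀ t : X × Fin n, t ∉ Ω → t.2 ≠ κ t.1 → 0 < f (S.cl F t) - f (S.cl F (t.1, κ t.1))) :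
    False := by
  classical
  have hn' : (0 : ℝ) < n := by exact_mod_cast hn
  have hX : (0 : ℝ) < Fintype.card X := by exact_mod_cast Fintype.card_pos
  have hnX : (0 : ℝ) < n * Fintype.card X := mul_pos hn' hX
  -- a lower bound for the gaps
  obtain ⟨g, hg0, hg⟩ : ∃ g : ℝ, 0 < g ∧ ∀ t : X × Fin n, t ∉ Ω → t.2 ≠ κ t.1 →
      g ≤ (f (S.cl F t) : ℝ) - (f (S.cl F (t.1, κ t.1)) : ℝ) := by
    set A := univ.filter fun t : X × Fin n => t ∉ Ω ∧ t.2 ≠ κ t.1 with hA
    rcases A.eq_empty_or_nonempty with h | h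
    · refine ⟨1, one_pos, fun t h1 h2 => ?_⟩
      have : t ∈ A := by rw [hA]; simp only [mem_filter, mem_univ, true_and]; exact ⟨h1, h2⟩
      rw [h] at this
      simp at this
    · obtain ⟨t₀, ht₀, hmin⟩ := exists_min_image A
        (fun t => (f (S.cl F t) : ℝ) - (f (S.cl F (t.1, κ t.1)) : ℝ)) h
      rw [hA] at ht₀ hmin
      simp only [mem_filter, mem_univ, true_and] at ht₀ hmin
      refine ⟨_, ?_, fun t h1 h2 => hmin t ⟨h1, h2⟩⟩
      have := hf t₀ ht₀.1 ht₀.2
      exact_mod_cast this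
  set B : ℝ := 1 + ∑ t, |(f (S.cl F t) : ℝ)| with hB
  have hBsum : 0 ≤ ∑ t, |(f (S.cl F t) : ℝ)| := sum_nonneg fun _ _ => abs_nonneg _
  have hB0 : 0 < B := by rw [hB]; linarith
  set r : ℝ := (4 * B)⁻¹ with hr
  have hr0 : 0 < r := by rw [hr]; positivity
  have hbd : ∀ t, |r * (f (S.cl F t) : ℝ)| ≤ 1 / 4 := by
    intro t
    have h2 : |(f (S.cl F t) : ℝ)| ≤ ∑ t, |(f (S.cl F t) : ℝ)| :=
      single_le_sum (f := fun t => |(f (S.cl F t) : ℝ)|) (fun _ _ => abs_nonneg _) (mem_univ _)
    rw [abs_mul, abs_of_pos hr0, hr, ← div_eq_inv_mul, div_le_div_iff₀ (by positivity) (by norm_num)]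
    linarith
  set δ : ℝ := min (min (1 / (n * Fintype.card X)) (r * g / 2)) (1 / 4) with hδ
  have hδ0 : 0 < δ := by
    rw [hδ]
    exact lt_min (lt_min (by positivity) (by positivity)) (by norm_num)
  have hδ1 : (n : ℝ) * Fintype.card X * δ ≤ 1 := by
    calc (n : ℝ) * Fintype.card X * δ ≤ (n : ℝ) * Fintype.card X * (1 / (n * Fintype.card X)) := by
          have : δ ≤ 1 / (n * Fintype.card X) := (min_le_left _ _).trans (min_le_left _ _)
          gcongr
      _ = 1 := by field_simp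
  have hδ2 : 2 * δ ≤ r * g := by
    have : δ ≤ r * g / 2 := (min_le_left _ _).trans (min_le_right _ _)
    linarith
  have hδ3 : δ ≤ 1 / 4 := min_le_right _ _
  have hAnn : S.Ann F (fun t => r * (f (S.cl F t) : ℝ)) := fun m hm =>
    ⟨0, by rw [S.ann_of_form F f _ m hm]; simp⟩
  obtain ⟨j, ⟨⟨a, ha, -, w, hw⟩, ⟨k, hk⟩⟩, ⟨hj1, ⟨k', hk'⟩⟩⟩ :=
    (((S.apx F hF hn hAnn hδ0).and (S.eps_int F hF hn)).and (hSt.and (mem_rel.1 hκ))).exists
  refine step_st hn (hj1 a ha) (S.he j) hk hw hδ1 (S.traceE j) ?_ κ ⟨k', ?_⟩ ?_ Ω hΩ ?_ ?_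
  · have := S.ann_of_form F f r _ (S.trace_mem F)
    rw [Fintype.sum_prod_type] at this
    simpa using this
  · rw [← hk', Fintype.sum_prod_type]
    refine sum_congr rfl fun x _ => ?_
    rw [sum_eq_single (κ x)]
    · simp
    · intro l _ hl
      simp [hl]
    · simp
  · have := S.ann_of_form F f r _ hκ
    rw [Fintype.sum_prod_type] at this
    rw [← this]
    refine sum_congr rfl fun x _ => ?_
    rw [sum_eq_single (κ x)]
    · simp
    · intro l _ hl
      simp [hl]
    · simp
  · intro x l h1 h2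
    have h3 := hg (x, l) h1 h2
    have h4 : r * g ≤ r * ((f (S.cl F (x, l)) : ℝ) - (f (S.cl F (x, κ x)) : ℝ)) := by
      gcongr
    rw [mul_sub] at h4
    linarith
  · intro x l
    have h3 := abs_le.1 (hbd (x, l))
    have h4 := abs_le.1 (hbd (x, κ x))
    linarith [h3.1, h4.2]

/-- The irreducible case. -/
lemma cover_irr [Nonempty X] (hF : (F : Filter ℕ) ≤ atTop) (hn : 0 < n)
    (hSt : ∀ᶠ j in (F : Filter ℕ), ∀ a : ℤ, IsCoprime a (S.N j : ℤ) →
      LineSt fun x l => (a : ℝ) * S.e j x l)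
    (Ω : Finset (X × Fin n)) (hΩ : Ω.card < n) :
    ∃ (M : ℕ) (p : X × Fin n → ℕ), 1 ≤ M ∧ (∀ t ∈ Ω, p t = 0) ∧
      (∀ x, ∑ l, p (x, l) = M) ∧ (fun t => (p t : ℤ)) ∈ S.R F ∧
      ∃ x l l', l ≠ l' ∧ p (x, l) ≠ 0 ∧ p (x, l') ≠ 0 := by
  classical
  obtain ⟨M, p, hM, hpΩ, hpM, hpR⟩ := S.cover F hF hn Ω hΩ
  by_cases hvert : ∃ x l l', l ≠ l' ∧ p (x, l) ≠ 0 ∧ p (x, l') ≠ 0
  · exact ⟨M, p, hM, hpΩ, hpM, hpR, hvert⟩
  push Not at hvert
  have hex : ∀ x, ∃ l, p (x, l) ≠ 0 := by
    intro x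
    by_contra h
    push Not at h
    have := hpM x
    rw [sum_eq_zero fun l _ => h l] at this
    omega
  choose κ hκ using hex
  have hκ0 : ∀ x l, l ≠ κ x → p (x, l) = 0 := by
    intro x l hl
    by_contra h
    exact hκ x (hvert x l (κ x) hl h)
  have hκM : ∀ x, p (x, κ x) = M := by
    intro x
    rw [← hpM x, sum_eq_single (κ x)]
    · intro l _ hl
      exact hκ0 x l hl
    · simp
  have hκΩ : ∀ x, (x, κ x) ∉ Ω := fun x h => hκ x (hpΩ _ h)
  have hκR : (fun t : X × Fin n => if t.2 = κ t.1 then (1 : ℤ) else 0) ∈ S.R F := by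
    refine rel_sat hF (q := S.q) (E := fun j (t : X × Fin n) => S.E j t.1 t.2)
      (fun j i => S.hE j i.1 i.2) S.rough (d := M) hM ?_
    have : (fun i : X × Fin n => (M : ℤ) * (if i.2 = κ i.1 then (1 : ℤ) else 0)) =
        fun t => (p t : ℤ) := by
      funext t
      by_cases ht : t.2 = κ t.1
      · have : t = (t.1, κ t.1) := by rw [← ht]
        rw [if_pos ht, this, hκM]
        simp
      · rw [if_neg ht, show t = (t.1, t.2) from rfl, hκ0 _ _ ht]
        simp
    rw [this]
    exact hpR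
  rcases gordan (ι := {t : X × Fin n // t ∉ Ω ∧ t.2 ≠ κ t.1})
    (fun t => S.cl F t.1 - S.cl F (t.1.1, κ t.1.1)) with ⟨c, hc0, hcne, hc⟩ | ⟨f, hf⟩
  · -- the vector of the relation
    set P : X × Fin n → ℚ := fun t => if h : t ∉ Ω ∧ t.2 ≠ κ t.1 then c ⟨t, h⟩ else 0 with hP
    have hP0 : ∀ t, 0 ≤ P t := by
      intro t
      simp only [hP]
      split_ifs
      · exact hc0 _
      · exact le_rfl
    have hPκ : ∀ x, P (x, κ x) = 0 := by
      intro x
      simp only [hP]
      rw [dif_neg]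
      simp
    have hPΩ : ∀ t ∈ Ω, P t = 0 := by
      intro t ht
      simp only [hP]
      rw [dif_neg]
      simp [ht]
    set Q : X × Fin n → ℚ := fun t => P t - if t.2 = κ t.1 then ∑ l, P (t.1, l) else 0 with hQ
    have hQU : Q ∈ S.U F := by
      rw [← Submodule.ker_mkQ (S.U F), LinearMap.mem_ker, ← S.sum_cl F, ← hc]
      have e1 : ∑ t, Q t • S.cl F t = ∑ t, P t • (S.cl F t - S.cl F (t.1, κ t.1)) := by
        simp only [hQ, sub_smul, smul_sub, sum_sub_distrib]
        congr 1
        rw [Fintype.sum_prod_type, Fintype.sum_prod_type]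
        refine sum_congr rfl fun x _ => ?_
        rw [sum_eq_single (κ x)]
        · simp only [if_true, sum_smul]
        · intro l _ hl
          simp [hl]
        · simp
      rw [e1]
      have e2 : ∀ t : {t : X × Fin n // t ∉ Ω ∧ t.2 ≠ κ t.1}, c t = P t.1 := by
        intro t
        simp only [hP]
        rw [dif_pos t.2]
      simp only [e2]
      rw [← sum_filter_of_ne (p := fun t : X × Fin n => t ∉ Ω ∧ t.2 ≠ κ t.1)]
      · exact sum_subtype _ (fun t => by simp) _
      · intro t _ ht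
        by_contra h
        apply ht
        simp only [hP]
        rw [dif_neg h, zero_smul]
    obtain ⟨d, hd, c', hc', hdc⟩ := S.clear F hQU
    have hd' : (0 : ℚ) < d := by exact_mod_cast hd
    set K : ℕ := 1 + ∑ t, (c' t).natAbs with hK
    have hKb : ∀ t, (c' t).natAbs < K := by
      intro t
      have : (c' t).natAbs ≤ ∑ t, (c' t).natAbs :=
        single_le_sum (f := fun t => (c' t).natAbs) (fun _ _ => Nat.zero_le _) (mem_univ t)
      omega
    set pz : X × Fin n → ℤ := fun t => c' t + K * (if t.2 = κ t.1 then 1 else 0) with hpz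
    have hcne' : ∀ t : X × Fin n, t.2 ≠ κ t.1 → (c' t : ℚ) = d * P t := by
      intro t ht
      rw [← hdc]
      simp only [hQ]
      rw [if_neg ht, sub_zero]
    have hpz0 : ∀ t, 0 ≤ pz t := by
      intro t
      simp only [hpz]
      split_ifs with ht
      · have := hKb t
        have h2 := Int.natAbs_neg (c' t)
        omega
      · have h1 : (0 : ℚ) ≤ c' t := by
          rw [hcne' t ht]
          exact mul_nonneg hd'.le (hP0 t)
        have h2 : 0 ≤ c' t := by exact_mod_cast h1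
        linarith
    have hpzκ : ∀ x, pz (x, κ x) ≠ 0 := by
      intro x
      simp only [hpz, if_true]
      have := hKb (x, κ x)
      omega
    have hct : ∀ t, (((pz t).toNat : ℕ) : ℤ) = pz t := fun t => Int.toNat_of_nonneg (hpz0 t)
    refine ⟨K, fun t => (pz t).toNat, by omega, fun t ht => ?_, fun x => ?_, ?_, ?_⟩
    · have h1 : t.2 ≠ κ t.1 := by
        intro h
        apply hκΩ t.1
        rw [← h]
        exact ht
      have h2 : (c' t : ℚ) = 0 := by rw [hcne' t h1, hPΩ t ht, mul_zero]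
      have h3 : c' t = 0 := by exact_mod_cast h2
      simp [hpz, h3, h1]
    · have h1 : ∑ l, (c' (x, l) : ℚ) = 0 := by
        simp only [← hdc, ← mul_sum]
        have : ∑ l, Q (x, l) = 0 := by
          simp only [hQ, sum_sub_distrib, sum_ite_eq', mem_univ, if_true, sub_self]
        rw [this, mul_zero]
      have h2 : ∑ l, c' (x, l) = 0 := by exact_mod_cast h1
      have h3 : ((∑ l, (pz (x, l)).toNat : ℕ) : ℤ) = K := by
        push_cast
        rw [sum_congr rfl fun l _ => hct (x, l)]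
        simp only [hpz, sum_add_distrib, ← mul_sum]
        rw [h2]
        simp
      exact_mod_cast h3
    · have h1 : (fun t => (((pz t).toNat : ℕ) : ℤ)) = pz := funext hct
      rw [h1]
      have h2 : pz = c' + (K : ℤ) • fun t : X × Fin n => if t.2 = κ t.1 then (1 : ℤ) else 0 := by
        funext t
        simp [hpz]
      rw [h2]
      exact (S.R F).add_mem hc' ((S.R F).zsmul_mem hκR _)
    · obtain ⟨t, ht⟩ := Function.ne_iff.1 hcne
      have h1 : 0 < P t.1 := by
        simp only [hP]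
        rw [dif_pos t.2]
        exact lt_of_le_of_ne (hc0 t) (Ne.symm ht)
      have h2 : (0 : ℚ) < c' t.1 := by
        rw [hcne' t.1 t.2.2]
        positivity
      have h3 : 0 < c' t.1 := by exact_mod_cast h2
      refine ⟨t.1.1, t.1.2, κ t.1.1, t.2.2, ?_, ?_⟩
      · have h4 : pz (t.1.1, t.1.2) = c' t.1 := by
          simp [hpz, t.2.2]
        have h5 := hct (t.1.1, t.1.2)
        intro h6
        have h7 : (pz (t.1.1, t.1.2)).toNat = 0 := h6
        rw [h7, h4] at h5
        simp at h5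
        omega
      · have h5 := hct (t.1.1, κ t.1.1)
        intro h6
        have h7 : (pz (t.1.1, κ t.1.1)).toNat = 0 := h6
        rw [h7] at h5
        exact hpzκ t.1.1 h5.symm
  · exfalso
    refine S.no_sep F hF hn hSt Ω hΩ κ hκR f fun t h1 h2 => ?_
    have := hf ⟨t, h1, h2⟩
    rwa [map_sub] at this

end Seq

end Pool.Agent.N858.PC
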