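import Pool.Agent.W432.TC.Equi
import Pool.Agent.N858.PC.Semi

set_option autoImplicit false

/-!
The lattice of the relations satisfied by almost all members of a sequence of rational vectors with
rough denominators, and the approximation of its annihilator by Galois conjugates.
-/

open Finset Filter

namespace Pool.Agent.N858.PC

section lattice

variable {I : Type*} [Fintype I]

/-- The relations satisfied, modulo the integers, by almost all members of the sequence. -/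
def Rel (F : Ultrafilter ℕ) (E : ℕ → I → ℚ) : AddSubgroup (I → ℤ) where
  carrier := {c | ∀ᶠ j in (F : Filter ℕ), ∃ z : ℤ, ∑ i, (c i : ℚ) * E j i = z}
  add_mem' := by
    intro c d hc hd
    filter_upwards [hc, hd] with j h1 h2
    obtain ⟨z, hz⟩ := h1
    obtain ⟨w, hw⟩ := h2
    refine ⟨z + w, ?_⟩
    push_cast
    rw [← hz, ← hw, ← sum_add_distrib]
    refine sum_congr rfl fun i _ => ?_
    rw [Pi.add_apply]
    push_cast
    ring
  zero_mem' := Eventually.of_forall fun j => ⟨0, by simp⟩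
  neg_mem' := by
    intro c hc
    filter_upwards [hc] with j h1
    obtain ⟨z, hz⟩ := h1
    refine ⟨-z, ?_⟩
    push_cast
    rw [← hz, ← sum_neg_distrib]
    refine sum_congr rfl fun i _ => ?_
    rw [Pi.neg_apply]
    push_cast
    ring

lemma mem_rel {F : Ultrafilter ℕ} {E : ℕ → I → ℚ} {c : I → ℤ} :
    c ∈ Rel F E ↔ ∀ᶠ j in (F : Filter ℕ), ∃ z : ℤ, ∑ i, (c i : ℚ) * E j i = z := Iff.rfl

lemma rel_all (F : Ultrafilter ℕ) (E : ℕ → I → ℚ) :
    ∀ᶠ j in (F : Filter ℕ), ∀ c ∈ Rel F E, ∃ z : ℤ, ∑ i, (c i : ℚ) * E j i = z := by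
  classical
  obtain ⟨S, hS⟩ := IsNoetherian.noetherian (AddSubgroup.toIntSubmodule (Rel F E))
  have hS' : ∀ c ∈ S, c ∈ Rel F E := by
    intro c hc
    have : c ∈ AddSubgroup.toIntSubmodule (Rel F E) := by
      rw [← hS]
      exact Submodule.subset_span hc
    exact this
  have h1 : ∀ᶠ j in (F : Filter ℕ), ∀ c ∈ S, ∃ z : ℤ, ∑ i, (c i : ℚ) * E j i = z :=
    (Filter.eventually_all_finset S).2 fun c hc => hS' c hc
  filter_upwards [h1] with j hj c hc
  have hc' : c ∈ Submodule.span ℤ (S : Set (I → ℤ)) := by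
    rw [hS]; exact hc
  induction hc' using Submodule.span_induction with
  | mem x hx => exact hj x hx
  | zero => exact ⟨0, by simp⟩
  | add x y hx hy h1 h2 =>
    obtain ⟨z, hz⟩ := h1 (by rw [hS] at hx; exact hx)
    obtain ⟨w, hw⟩ := h2 (by rw [hS] at hy; exact hy)
    refine ⟨z + w, ?_⟩
    push_cast
    rw [← hz, ← hw, ← sum_add_distrib]
    refine sum_congr rfl fun i _ => ?_
    rw [Pi.add_apply]
    push_cast
    ring
  | smul a x hx h1 =>
    obtain ⟨z, hz⟩ := h1 (by rw [hS] at hx; exact hx)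
    refine ⟨a * z, ?_⟩
    push_cast
    rw [← hz, mul_sum]
    refine sum_congr rfl fun i _ => ?_
    rw [Pi.smul_apply, smul_eq_mul]
    push_cast
    ring

/-- An element of `(1/q) ℤ` with a multiple in `ℤ`. -/
lemma int_of_mul {q k : ℕ} (h : Nat.Coprime k q) {S : ℚ} {z w : ℤ} (h1 : (k : ℚ) * S = z)
    (h2 : (q : ℚ) * S = w) : ∃ v : ℤ, S = v := by
  obtain ⟨r, s, hrs⟩ := Nat.isCoprime_iff_coprime.2 h
  refine ⟨r * z + s * w, ?_⟩
  have h3 : (r : ℚ) * k + s * q = 1 := by exact_mod_cast hrs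
  push_cast
  rw [← h1, ← h2]
  linear_combination (-S) * h3

lemma coprime_rough {q j k : ℕ} (hr : ∀ p : ℕ, p.Prime → p ∣ q → j < p) (hk : 0 < k) (hkj : k ≤ j) :
    Nat.Coprime k q := by
  by_contra h
  obtain ⟨p, hp, h1, h2⟩ := Nat.Prime.not_coprime_iff_dvd.1 h
  have := hr p hp h2
  have := Nat.le_of_dvd hk h1
  omega

lemma int_sum {q : ℕ} {E : I → ℚ} (hE : ∀ i, ∃ z : ℤ, (q : ℚ) * E i = z) (c : I → ℤ) :
    ∃ w : ℤ, (q : ℚ) * ∑ i, (c i : ℚ) * E i = w := by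
  choose z hz using hE
  refine ⟨∑ i, c i * z i, ?_⟩
  push_cast
  rw [mul_sum]
  refine sum_congr rfl fun i _ => ?_
  rw [← hz]
  ring

lemma rel_sat {F : Ultrafilter ℕ} (hF : (F : Filter ℕ) ≤ atTop) {E : ℕ → I → ℚ} {q : ℕ → ℕ}
    (hE : ∀ j i, ∃ z : ℤ, (q j : ℚ) * E j i = z)
    (hr : ∀ j, ∀ p : ℕ, p.Prime → p ∣ q j → j < p) {d : ℕ} (hd : 0 < d) {c : I → ℤ}
    (hc : (fun i => (d : ℤ) * c i) ∈ Rel F E) : c ∈ Rel F E := by
  have h1 : ∀ᶠ j in (F : Filter ℕ), d ≤ j := hF (eventually_ge_atTop d)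
  filter_upwards [mem_rel.1 hc, h1] with j h2 h3
  obtain ⟨z, hz⟩ := h2
  obtain ⟨w, hw⟩ := int_sum (hE j) c
  refine int_of_mul (coprime_rough (hr j) hd h3) (z := z) ?_ hw
  rw [← hz, mul_sum]
  refine sum_congr rfl fun i _ => ?_
  push_cast
  ring

/-- Approximation of the annihilator of the relations by Galois conjugates. -/
theorem approx [DecidableEq I] {F : Ultrafilter ℕ} (hF : (F : Filter ℕ) ≤ atTop) {E : ℕ → I → ℚ}
    {q : ℕ → ℕ} (hE : ∀ j i, ∃ z : ℤ, (q j : ℚ) * E j i = z)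
    (hr : ∀ j, ∀ p : ℕ, p.Prime → p ∣ q j → j < p) (y : I → ℝ)
    (hy : ∀ m ∈ Rel F E, ∃ z : ℤ, ∑ i, (m i : ℝ) * y i = z) (δ : ℝ) (hδ : 0 < δ) :
    ∀ᶠ j in (F : Filter ℕ), ∀ N : ℕ, 0 < N → (∀ i, ∃ z : ℤ, (N : ℚ) * E j i = z) →
      ∃ a : ℤ, IsCoprime a (N : ℤ) ∧ ∀ i, ∃ z : ℤ, |(a : ℝ) * E j i - y i - z| < δ := by
  obtain ⟨K, Q, h⟩ := Pool.Agent.W432.TC.equidist (Rel F E) (fun _ => 0) y (by
    intro m hm
    obtain ⟨z, hz⟩ := hy m hm
    exact ⟨z, by simpa using hz⟩) δ hδ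
  have h1 := rel_all F E
  have h2 : ∀ᶠ j in (F : Filter ℕ), ∀ m ∈ Fintype.piFinset (fun _ : I => Finset.Icc (-(K : ℤ)) K),
      m ∉ Rel F E → ¬ ∃ z : ℤ, ∑ i, (m i : ℚ) * E j i = z := by
    refine (Filter.eventually_all_finset _).2 fun m _ => ?_
    by_cases hm : m ∈ Rel F E
    · exact Eventually.of_forall fun j hj => absurd hm hj
    · have : ¬ ∀ᶠ j in (F : Filter ℕ), ∃ z : ℤ, ∑ i, (m i : ℚ) * E j i = z := hm
      rw [← Ultrafilter.eventually_not] at this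
      filter_upwards [this] with j hj _
      exact hj
  have h3 : ∀ᶠ j in (F : Filter ℕ), Q ≤ j := hF (eventually_ge_atTop Q)
  filter_upwards [h1, h2, h3] with j g1 g2 g3 N hN hNE
  refine h (E j) ?_ ?_ N hN hNE
  · intro m hm
    obtain ⟨z, hz⟩ := g1 m hm
    exact ⟨z, by simpa using hz⟩
  · intro m hm hmK k hk hkQ
    rintro ⟨z, hz⟩
    obtain ⟨w, hw⟩ := int_sum (hE j) m
    refine g2 m ?_ hm (int_of_mul (coprime_rough (hr j) hk (hkQ.trans g3)) hz hw)
    rw [Fintype.mem_piFinset]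
    intro i
    rw [Finset.mem_Icc]
    exact abs_le.1 (hmK i)

end lattice

section step

variable {X : Type*} [Fintype X] [DecidableEq X] {n : ℕ}

/-- An integer of absolute value less than one. -/
lemma eq_of_abs_lt {r : ℝ} {k : ℤ} (h : r = k) (h1 : |r| < 1) : r = 0 := by
  rw [h] at h1
  have h2 : |k| < 1 := by exact_mod_cast h1
  rw [h, Int.abs_lt_one_iff.1 h2, Int.cast_zero]

lemma sum_eq_zero_of_small [Nonempty X] (hn : 0 < n) {a : ℤ} {E : X → Fin n → ℚ}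
    {y : X → Fin n → ℝ} {w : X → Fin n → ℤ} {δ : ℝ}
    (hw : ∀ x l, |(a : ℝ) * E x l - y x l - w x l| < δ)
    (hδ : (n : ℝ) * Fintype.card X * δ ≤ 1) (hE : ∃ k : ℤ, ∑ x, ∑ l, E x l = k)
    (hy : ∃ k : ℤ, ∑ x, ∑ l, y x l = k) :
    ∑ x, ∑ l, (a : ℝ) * E x l = ∑ x, ∑ l, y x l + ((∑ x, ∑ l, w x l : ℤ) : ℝ) := by
  obtain ⟨k, hk⟩ := hE
  obtain ⟨k', hk'⟩ := hy
  have : Nonempty (Fin n) := ⟨⟨0, hn⟩⟩
  have h1 : |∑ x, ∑ l, ((a : ℝ) * E x l - y x l - w x l)| < 1 := by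
    calc |∑ x, ∑ l, ((a : ℝ) * E x l - y x l - w x l)|
        ≤ ∑ x, |∑ l, ((a : ℝ) * E x l - y x l - w x l)| := abs_sum_le_sum_abs _ _
      _ ≤ ∑ x, ∑ l, |(a : ℝ) * E x l - y x l - w x l| :=
          sum_le_sum fun x _ => abs_sum_le_sum_abs _ _
      _ < ∑ _x : X, ∑ _l : Fin n, δ :=
          sum_lt_sum_of_nonempty univ_nonempty fun x _ =>
            sum_lt_sum_of_nonempty univ_nonempty fun l _ => hw x l
      _ = n * Fintype.card X * δ := by
          simp only [sum_const, card_univ, Fintype.card_fin, nsmul_eq_mul]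
          ring
      _ ≤ 1 := hδ
  have h2 : ∑ x, ∑ l, (E x l : ℝ) = k := by
    have := congrArg (fun r : ℚ => (r : ℝ)) hk
    push_cast at this
    exact this
  have h3 : ∑ x, ∑ l, ((a : ℝ) * E x l - y x l - w x l) =
      ((a * k - k' - ∑ x, ∑ l, w x l : ℤ) : ℝ) := by
    push_cast
    rw [← hk', ← h2]
    simp only [sum_sub_distrib, mul_sum]
  have h4 := eq_of_abs_lt h3 h1
  simp only [sum_sub_distrib] at h4
  push_cast
  linarith

/-- The inequality for line subbundles at a conjugate close to `y`. -/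
lemma step [Nonempty X] (hn : 0 < n) {e E : X → Fin n → ℚ} {ε : X → ℚ} {a : ℤ}
    {y : X → Fin n → ℝ} {w : X → Fin n → ℤ} {δ : ℝ}
    (hSS : LineSS fun x l => (a : ℝ) * e x l) (he : ∀ x l, e x l = E x l + ε x)
    (hw : ∀ x l, |(a : ℝ) * E x l - y x l - w x l| < δ)
    (hδ : (n : ℝ) * Fintype.card X * δ ≤ 1) (hE : ∃ k : ℤ, ∑ x, ∑ l, E x l = k)
    (hy : ∃ k : ℤ, ∑ x, ∑ l, y x l = k) (β : X → ℝ) (m : ℤ)
    (hm : (m : ℝ) < a * ∑ x, (ε x : ℝ) + ∑ x, β x - Fintype.card X * δ) :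
    ((∑ x, ∑ l, ⌊y x l - β x⌋ : ℤ) : ℝ) + n + n * m ≤
      ∑ x, ∑ l, y x l + n * (a * ∑ x, (ε x : ℝ)) := by
  obtain ⟨x₀⟩ := ‹Nonempty X›
  have : Nonempty X := ⟨x₀⟩
  have h1 := hSS (fun x => (a : ℝ) * ε x + β x - δ - if x = x₀ then (m : ℝ) else 0) (by
    simp only [sum_sub_distrib, sum_add_distrib, sum_ite_eq', mem_univ, if_true, sum_const,
      card_univ, nsmul_eq_mul, ← mul_sum]
    linarith)
  have h2 : ∀ x l, ⌊y x l - β x⌋ + w x l + (if x = x₀ then m else 0) ≤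
      ⌊(a : ℝ) * e x l - ((a : ℝ) * ε x + β x - δ - if x = x₀ then (m : ℝ) else 0)⌋ := by
    intro x l
    rw [Int.le_floor]
    have h3 := abs_lt.1 (hw x l)
    have h4 := Int.floor_le (y x l - β x)
    have h5 : (e x l : ℝ) = E x l + ε x := by rw [he]; push_cast; ring
    push_cast
    rw [h5]
    split_ifs <;> linarith [h3.1]
  have h3 : ∑ x, ∑ l, ⌊y x l - β x⌋ + ∑ x, ∑ l, w x l + n * m ≤
      ∑ x, ∑ l, ⌊(a : ℝ) * e x l - ((a : ℝ) * ε x + β x - δ - if x = x₀ then (m : ℝ) else 0)⌋ := by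
    calc _ = ∑ x, ∑ l, (⌊y x l - β x⌋ + w x l + (if x = x₀ then m else 0)) := by
          simp only [sum_add_distrib]
          congr 1
          have : ∀ x : X, ∑ _l : Fin n, (if x = x₀ then m else 0) = if x = x₀ then n * m else 0 := by
            intro x
            split_ifs <;> simp
          rw [sum_congr rfl fun x _ => this x, sum_ite_eq', if_pos (mem_univ _)]
      _ ≤ _ := sum_le_sum fun x _ => sum_le_sum fun l _ => h2 x l
  have h4 := sum_eq_zero_of_small hn hw hδ hE hy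
  have h5 : ∑ x, ∑ l, (a : ℝ) * e x l =
      ∑ x, ∑ l, (a : ℝ) * E x l + n * (a * ∑ x, (ε x : ℝ)) := by
    have : ∀ x, ∑ l, (a : ℝ) * e x l = ∑ l, (a : ℝ) * E x l + n * (a * ε x) := by
      intro x
      have h6 : ∀ l, (a : ℝ) * e x l = (a : ℝ) * E x l + a * ε x := by
        intro l
        rw [he]; push_cast; ring
      rw [sum_congr rfl fun l _ => h6 l, sum_add_distrib, sum_const, card_univ, Fintype.card_fin,
        nsmul_eq_mul]
    rw [sum_congr rfl fun x _ => this x, sum_add_distrib, ← mul_sum, ← mul_sum]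
  have h6 : ((∑ x, ∑ l, ⌊y x l - β x⌋ + ∑ x, ∑ l, w x l + n * m : ℤ) : ℝ) ≤
      ((∑ x, ∑ l, ⌊(a : ℝ) * e x l -
        ((a : ℝ) * ε x + β x - δ - if x = x₀ then (m : ℝ) else 0)⌋ : ℤ) : ℝ) := by
    exact_mod_cast h3
  rw [h5, h4] at h1
  rw [Int.cast_add, Int.cast_add] at h6
  push_cast at h1 h6 ⊢
  linarith

/-- The strict inequality for line subbundles at a conjugate close to `y`, for a relation of degree
one. -/
lemma step_st [Nonempty X] (hn : 0 < n) {e E : X → Fin n → ℚ} {ε : X → ℚ} {a k₀ : ℤ}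
    {y : X → Fin n → ℝ} {w : X → Fin n → ℤ} {δ : ℝ}
    (hSt : LineSt fun x l => (a : ℝ) * e x l) (he : ∀ x l, e x l = E x l + ε x)
    (hε : ∑ x, ε x = k₀)
    (hw : ∀ x l, |(a : ℝ) * E x l - y x l - w x l| < δ)
    (hδ : (n : ℝ) * Fintype.card X * δ ≤ 1) (hE : ∃ k : ℤ, ∑ x, ∑ l, E x l = k)
    (hy : ∑ x, ∑ l, y x l = 0) (κ : X → Fin n) (hκE : ∃ k : ℤ, ∑ x, E x (κ x) = k)
    (hκy : ∑ x, y x (κ x) = 0) (Ω : Finset (X × Fin n)) (hΩ : Ω.card < n)
    (hy1 : ∀ x l, (x, l) ∉ Ω → l ≠ κ x → y x (κ x) + 2 * δ ≤ y x l)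
    (hy2 : ∀ x l, y x (κ x) + 2 * δ - 1 ≤ y x l) : False := by
  obtain ⟨x₀⟩ := ‹Nonempty X›
  have : Nonempty X := ⟨x₀⟩
  have : Nonempty (Fin n) := ⟨⟨0, hn⟩⟩
  obtain ⟨k, hk⟩ := hκE
  have hk2 : ∑ x, (E x (κ x) : ℝ) = k := by
    have := congrArg (fun r : ℚ => (r : ℝ)) hk
    push_cast at this
    exact this
  have hδ0 : 0 < δ := (abs_nonneg _).trans_lt (hw x₀ ⟨0, hn⟩)
  have hε' : ∑ x, (ε x : ℝ) = k₀ := by
    have := congrArg (fun r : ℚ => (r : ℝ)) hε
    push_cast at this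
    exact this
  -- the integral part of the relation
  have h0 : (a : ℝ) * k = ((∑ x, w x (κ x) : ℤ) : ℝ) := by
    have h1 : |∑ x, ((a : ℝ) * E x (κ x) - y x (κ x) - w x (κ x))| < 1 := by
      calc |∑ x, ((a : ℝ) * E x (κ x) - y x (κ x) - w x (κ x))|
          ≤ ∑ x, |(a : ℝ) * E x (κ x) - y x (κ x) - w x (κ x)| := abs_sum_le_sum_abs _ _
        _ < ∑ _x : X, δ := sum_lt_sum_of_nonempty univ_nonempty fun x _ => hw x (κ x)
        _ = 1 * (Fintype.card X * δ) := by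
            simp only [sum_const, card_univ, nsmul_eq_mul, one_mul]
        _ ≤ n * (Fintype.card X * δ) := by
            have h2 : (1 : ℝ) ≤ n := by exact_mod_cast hn
            gcongr
        _ ≤ 1 := by linarith
    have h3 : ∑ x, ((a : ℝ) * E x (κ x) - y x (κ x) - w x (κ x)) =
        ((a * k - ∑ x, w x (κ x) : ℤ) : ℝ) := by
      push_cast
      rw [sum_sub_distrib, sum_sub_distrib, hκy, sub_zero, ← mul_sum, hk2]
    have h4 := eq_of_abs_lt h3 h1
    rw [h3] at h4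
    push_cast at h4 ⊢
    linarith
  have h1 := hSt (fun x => (a : ℝ) * e x (κ x) - w x (κ x) - if x = x₀ then ((a * k₀ : ℤ) : ℝ) else 0) (by
    have h2 : ∑ x, (a : ℝ) * e x (κ x) = a * k + a * k₀ := by
      rw [← hk2, ← hε', mul_sum, mul_sum, ← sum_add_distrib]
      refine sum_congr rfl fun x _ => ?_
      rw [he]; push_cast; ring
    rw [sum_sub_distrib, sum_sub_distrib, h2, sum_ite_eq', if_pos (mem_univ _), h0]
    push_cast
    linarith)
  have h2 : ∀ x l, w x l - (if (x, l) ∈ Ω then 1 else 0) + (if x = x₀ then a * k₀ else 0) ≤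
      ⌊(a : ℝ) * e x l - ((a : ℝ) * e x (κ x) - w x (κ x) -
        if x = x₀ then ((a * k₀ : ℤ) : ℝ) else 0)⌋ := by
    intro x l
    rw [Int.le_floor]
    have h3 := abs_lt.1 (hw x l)
    have h4 := abs_lt.1 (hw x (κ x))
    have h5 : (e x l : ℝ) = E x l + ε x := by rw [he]; push_cast; ring
    have h6 : (e x (κ x) : ℝ) = E x (κ x) + ε x := by rw [he]; push_cast; ring
    have h7 := hy2 x l
    by_cases hl : l = κ x
    · subst hl
      push_cast
      split_ifs <;> linarith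
    · by_cases hΩ' : (x, l) ∈ Ω
      · rw [if_pos hΩ']
        push_cast
        rw [h5, h6]
        split_ifs <;> push_cast <;> linarith [h3.1, h4.2]
      · rw [if_neg hΩ']
        have h8 := hy1 x l hΩ' hl
        push_cast
        rw [h5, h6]
        split_ifs <;> push_cast <;> linarith [h3.1, h4.2]
  have h3 : ∑ x, ∑ l, w x l - Ω.card + n * (a * k₀) ≤
      ∑ x, ∑ l, ⌊(a : ℝ) * e x l - ((a : ℝ) * e x (κ x) - w x (κ x) -
        if x = x₀ then ((a * k₀ : ℤ) : ℝ) else 0)⌋ := by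
    calc _ = ∑ x, ∑ l, (w x l - (if (x, l) ∈ Ω then 1 else 0) + (if x = x₀ then a * k₀ else 0)) := by
          simp only [sum_add_distrib, sum_sub_distrib]
          congr 1
          · congr 1
            rw [← Fintype.sum_prod_type' (fun x l => if (x, l) ∈ Ω then (1 : ℤ) else 0)]
            simp
          · have : ∀ x : X, ∑ _l : Fin n, (if x = x₀ then a * k₀ else 0) =
                if x = x₀ then n * (a * k₀) else 0 := by
              intro x
              split_ifs <;> simp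
            rw [sum_congr rfl fun x _ => this x, sum_ite_eq', if_pos (mem_univ _)]
      _ ≤ _ := sum_le_sum fun x _ => sum_le_sum fun l _ => h2 x l
  have h4 := sum_eq_zero_of_small hn hw hδ hE ⟨0, by simpa using hy⟩
  have h5 : ∑ x, ∑ l, (a : ℝ) * e x l =
      ∑ x, ∑ l, (a : ℝ) * E x l + n * (a * ∑ x, (ε x : ℝ)) := by
    have : ∀ x, ∑ l, (a : ℝ) * e x l = ∑ l, (a : ℝ) * E x l + n * (a * ε x) := by
      intro x
      have h6 : ∀ l, (a : ℝ) * e x l = (a : ℝ) * E x l + a * ε x := by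
        intro l
        rw [he]; push_cast; ring
      rw [sum_congr rfl fun l _ => h6 l, sum_add_distrib, sum_const, card_univ, Fintype.card_fin,
        nsmul_eq_mul]
    rw [sum_congr rfl fun x _ => this x, sum_add_distrib, ← mul_sum, ← mul_sum]
  have h6 : ((∑ x, ∑ l, w x l - Ω.card + n * (a * k₀) : ℤ) : ℝ) ≤
      ((∑ x, ∑ l, ⌊(a : ℝ) * e x l - ((a : ℝ) * e x (κ x) - w x (κ x) -
        if x = x₀ then ((a * k₀ : ℤ) : ℝ) else 0)⌋ : ℤ) : ℝ) := by
    exact_mod_cast h3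
  rw [h5, h4, hy, hε'] at h1
  rw [Int.cast_add, Int.cast_sub] at h6
  have h7 : (n : ℝ) ≤ Ω.card := by
    push_cast at h1 h6
    linarith
  have h8 : n ≤ Ω.card := by exact_mod_cast h7
  omega

end step

end Pool.Agent.N858.PC
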