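import Pool.Agent.N858.PC.Dede
import Pool.Agent.N858.PC.Irr

set_option autoImplicit false

/-!
Relations of degree one through given exponents at two points.
-/

open Finset Filter

namespace Pool.Agent.N858.PC

open Classical in
/-- The inequalities for line subbundles for a vector with scalar components outside of two points,
and for its negative. -/
lemma count_le {X : Type*} [Fintype X] {n : ℕ} {Y : X → Fin n → ℝ}
    (h1 : LineSS Y) (h2 : LineSS fun z l => -Y z l) {x y : X} (hxy : x ≠ y) (t : X → ℝ)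
    (u v : Fin n → ℝ)
    (hY : ∀ z l, Y z l = t z + (if z = x then u l else 0) + (if z = y then v l else 0)) (b : ℝ) :
    (univ.filter fun l => ∃ k : ℤ, u l - b = k).card ≤
      (univ.filter fun l => ∃ k : ℤ, (-v l - ∑ z, t z) - b = k).card := by
  set τ : ℝ := ∑ z, t z with hτ
  -- the choice of the shift
  obtain ⟨η, hη0, hη1, hη⟩ : ∃ η : ℝ, 0 < η ∧ η < 1 ∧ ∀ l, (¬ ∃ k : ℤ, (-v l - τ) - b = k) →
      -1 ≤ ⌊v l + τ + b - η⌋ + ⌊-(v l + τ + b) - η⌋ := by
    have h3 : ∀ l, ∀ᶠ η : ℝ in nhdsWithin 0 (Set.Ioi 0), (¬ ∃ k : ℤ, (-v l - τ) - b = k) →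
        -1 ≤ ⌊v l + τ + b - η⌋ + ⌊-(v l + τ + b) - η⌋ := by
      intro l
      by_cases hk : ∃ k : ℤ, (-v l - τ) - b = k
      · exact Eventually.of_forall fun η h => absurd hk h
      · set r : ℝ := v l + τ + b with hr
        have h4 : (⌊r⌋ : ℝ) < r := by
          refine lt_of_le_of_ne (Int.floor_le r) fun h => hk ⟨-⌊r⌋, ?_⟩
          push_cast
          rw [h, hr]
          ring
        have h5 := Int.lt_floor_add_one r
        have h6 : (0 : ℝ) < min (r - ⌊r⌋) (⌊r⌋ + 1 - r) := lt_min (by linarith) (by linarith)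
        filter_upwards [Ioo_mem_nhdsGT h6] with η h7 _
        have h8 := h7.2.trans_le (min_le_left _ _)
        have h9 := h7.2.trans_le (min_le_right _ _)
        have e1 : ⌊r⌋ ≤ ⌊r - η⌋ := Int.le_floor.2 (by linarith)
        have e2 : -(⌊r⌋ + 1) ≤ ⌊-r - η⌋ := Int.le_floor.2 (by push_cast; linarith)
        linarith
    have h4 : ∀ᶠ η : ℝ in nhdsWithin 0 (Set.Ioi 0), η ∈ Set.Ioo (0 : ℝ) 1 :=
      Ioo_mem_nhdsGT one_pos
    obtain ⟨η, h5, h6⟩ := ((Filter.eventually_all.2 h3).and h4).exists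
    exact ⟨η, h6.1, h6.2, h5⟩
  have g1 := h1 (fun z => t z + (if z = x then b else 0) + (if z = y then (-τ - b + η) else 0)) (by
    simp only [sum_add_distrib, sum_ite_eq', mem_univ, if_true, ← hτ]
    linarith)
  have g2 := h2 (fun z => -t z - (if z = x then b else 0) + (if z = y then (τ + b + η) else 0)) (by
    simp only [sum_add_distrib, sum_sub_distrib, sum_neg_distrib, sum_ite_eq', mem_univ, if_true,
      ← hτ]
    linarith)
  have hsum : ∑ z, ∑ l, Y z l = n * τ + ∑ l, u l + ∑ l, v l := by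
    have e1 : ∀ z, ∑ l, Y z l = n * t z + (if z = x then ∑ l, u l else 0) +
        (if z = y then ∑ l, v l else 0) := by
      intro z
      simp only [hY, sum_add_distrib, sum_const, card_univ, Fintype.card_fin, nsmul_eq_mul]
      split_ifs <;> simp
    simp only [e1, sum_add_distrib, ← mul_sum, sum_ite_eq', mem_univ, if_true, ← hτ]
  simp only [sum_neg_distrib, hsum] at g2
  rw [hsum] at g1
  have e1 : ∑ z, ∑ l, ⌊Y z l - (t z + (if z = x then b else 0) +
      (if z = y then (-τ - b + η) else 0))⌋ = ∑ l, ⌊u l - b⌋ + ∑ l, ⌊v l + τ + b - η⌋ := by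
    rw [Finset.sum_eq_add x y hxy]
    · congr 1
      · refine sum_congr rfl fun l _ => ?_
        congr 1
        rw [hY, if_pos rfl, if_pos rfl, if_neg hxy, if_neg hxy]
        ring
      · refine sum_congr rfl fun l _ => ?_
        congr 1
        rw [hY, if_pos rfl, if_pos rfl, if_neg hxy.symm, if_neg hxy.symm]
        ring
    · intro z _ hz
      refine sum_eq_zero fun l _ => ?_
      rw [hY, if_neg hz.1, if_neg hz.2, if_neg hz.1, if_neg hz.2]
      simp
    · simp
    · simp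
  have e2 : ∑ z, ∑ l, ⌊-Y z l - (-t z - (if z = x then b else 0) +
      (if z = y then (τ + b + η) else 0))⌋ = ∑ l, ⌊-(u l - b)⌋ + ∑ l, ⌊-(v l + τ + b) - η⌋ := by
    rw [Finset.sum_eq_add x y hxy]
    · congr 1
      · refine sum_congr rfl fun l _ => ?_
        congr 1
        rw [hY, if_pos rfl, if_pos rfl, if_neg hxy, if_neg hxy]
        ring
      · refine sum_congr rfl fun l _ => ?_
        congr 1
        rw [hY, if_pos rfl, if_pos rfl, if_neg hxy.symm, if_neg hxy.symm]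
        ring
    · intro z _ hz
      refine sum_eq_zero fun l _ => ?_
      rw [hY, if_neg hz.1, if_neg hz.2, if_neg hz.1, if_neg hz.2]
      simp
    · simp
    · simp
  rw [e1] at g1
  rw [e2] at g2
  have g3 : ((∑ l, (⌊u l - b⌋ + ⌊-(u l - b)⌋) + ∑ l, (⌊v l + τ + b - η⌋ + ⌊-(v l + τ + b) - η⌋) +
      2 * n : ℤ) : ℝ) ≤ 0 := by
    push_cast at g1 g2 ⊢
    simp only [sum_add_distrib]
    linarith
  have g4 : ∑ l, (⌊u l - b⌋ + ⌊-(u l - b)⌋) + ∑ l, (⌊v l + τ + b - η⌋ + ⌊-(v l + τ + b) - η⌋) +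
      2 * n ≤ 0 := by exact_mod_cast g3
  have g5 : ∑ l, (-1 + if ∃ k : ℤ, u l - b = k then (1 : ℤ) else 0) ≤
      ∑ l, (⌊u l - b⌋ + ⌊-(u l - b)⌋) := by
    refine sum_le_sum fun l _ => ?_
    split_ifs with h
    · obtain ⟨k, hk⟩ := h
      rw [hk, Int.floor_intCast, ← Int.cast_neg, Int.floor_intCast]
      linarith
    · rw [Int.floor_neg]
      have := Int.ceil_le_floor_add_one (u l - b)
      omega
  have g6 : ∑ l, (-1 - if ∃ k : ℤ, (-v l - τ) - b = k then (1 : ℤ) else 0) ≤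
      ∑ l, (⌊v l + τ + b - η⌋ + ⌊-(v l + τ + b) - η⌋) := by
    refine sum_le_sum fun l _ => ?_
    by_cases h : ∃ k : ℤ, (-v l - τ) - b = k
    · rw [if_pos h]
      obtain ⟨k, hk⟩ := h
      have h3 : v l + τ + b = ((-k : ℤ) : ℝ) := by push_cast; linarith
      rw [h3]
      have h4 : -k - 1 ≤ ⌊((-k : ℤ) : ℝ) - η⌋ := Int.le_floor.2 (by push_cast; linarith)
      have h5 : k - 1 ≤ ⌊-((-k : ℤ) : ℝ) - η⌋ := Int.le_floor.2 (by push_cast; linarith)
      linarith
    · rw [if_neg h]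
      have := hη l h
      linarith
  simp only [sum_add_distrib, sum_sub_distrib, sum_const, card_univ, Fintype.card_fin,
    nsmul_eq_mul, sum_boole] at g5 g6
  simp only [sum_add_distrib] at g4
  have g7 : ((univ.filter fun l => ∃ k : ℤ, u l - b = k).card : ℤ) ≤
      (univ.filter fun l => ∃ k : ℤ, (-v l - τ) - b = k).card := by
    linarith
  exact_mod_cast g7

/-- The rational vectors with integral products with a subgroup. -/
def Dual {J : Type*} [Fintype J] (𝒮 : AddSubgroup (J → ℤ)) : AddSubgroup (J → ℚ) where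
  carrier := {t | ∀ m ∈ 𝒮, ∃ z : ℤ, ∑ i, (m i : ℚ) * t i = z}
  add_mem' := by
    intro a b ha hb m hm
    obtain ⟨z, hz⟩ := ha m hm
    obtain ⟨w, hw⟩ := hb m hm
    refine ⟨z + w, ?_⟩
    push_cast
    rw [← hz, ← hw, ← sum_add_distrib]
    refine sum_congr rfl fun i _ => ?_
    rw [Pi.add_apply]
    ring
  zero_mem' := fun m hm => ⟨0, by simp⟩
  neg_mem' := by
    intro a ha m hm
    obtain ⟨z, hz⟩ := ha m hm
    refine ⟨-z, ?_⟩
    push_cast
    rw [← hz, ← sum_neg_distrib]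
    refine sum_congr rfl fun i _ => ?_
    rw [Pi.neg_apply]
    ring

/-- The components of a relation at the points `x`, `y`, and its degrees. -/
def sm {X : Type*} [Fintype X] {n : ℕ} (x y : X) :
    (X × Fin n → ℤ) →+ (X ⊕ (Fin n ⊕ Fin n) → ℤ) where
  toFun := fun c => Sum.elim (fun z => ∑ l, c (z, l))
    (Sum.elim (fun l => c (x, l)) fun l => c (y, l))
  map_zero' := by funext z; rcases z with z | i | i <;> simp
  map_add' := by
    intro c d; funext z
    rcases z with z | i | i <;> simp [sum_add_distrib]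

/-- The first family of maps. -/
def mapL {X : Type*} [Fintype X] {n : ℕ} (𝒮 : AddSubgroup (X ⊕ (Fin n ⊕ Fin n) → ℤ)) (l : Fin n) :
    Dual 𝒮 →+ ℝ where
  toFun := fun t => ((t.1 (Sum.inr (Sum.inl l)) : ℚ) : ℝ)
  map_zero' := by simp
  map_add' := by intro a b; simp

/-- The second family of maps. -/
def mapR {X : Type*} [Fintype X] {n : ℕ} (𝒮 : AddSubgroup (X ⊕ (Fin n ⊕ Fin n) → ℤ)) (l : Fin n) :
    Dual 𝒮 →+ ℝ where
  toFun := fun t => ((-t.1 (Sum.inr (Sum.inr l)) - ∑ z, t.1 (Sum.inl z) : ℚ) : ℝ)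
  map_zero' := by simp
  map_add' := by
    intro a b
    simp only [AddSubgroup.coe_add, Pi.add_apply, sum_add_distrib]
    push_cast
    ring

namespace Seq

variable {X : Type*} [Fintype X] [DecidableEq X] {n : ℕ} (S : Seq X n) (F : Ultrafilter ℕ)

open Classical in
lemma key [Nonempty X] (hF : (F : Filter ℕ) ≤ atTop) (hn : 0 < n) {x y : X} (hxy : x ≠ y)
    (t : X ⊕ (Fin n ⊕ Fin n) → ℚ)
    (ht : ∀ m ∈ (S.R F).map (sm x y), ∃ z : ℤ, ∑ i, (m i : ℚ) * t i = z) (b : ℝ) :
    (univ.filter fun l => ∃ k : ℤ, (t (Sum.inr (Sum.inl l)) : ℝ) - b = k).card ≤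
      (univ.filter fun l => ∃ k : ℤ, (-(t (Sum.inr (Sum.inr l)) : ℝ) -
        ∑ z, (t (Sum.inl z) : ℝ)) - b = k).card := by
  set Y : X × Fin n → ℝ := fun i => (t (Sum.inl i.1) : ℝ) +
    (if i.1 = x then (t (Sum.inr (Sum.inl i.2)) : ℝ) else 0) +
    (if i.1 = y then (t (Sum.inr (Sum.inr i.2)) : ℝ) else 0) with hYdef
  have hAnn : S.Ann F Y := by
    intro m hm
    obtain ⟨z, hz⟩ := ht (sm x y m) ⟨m, hm, rfl⟩
    refine ⟨z, ?_⟩
    have h1 := congrArg (fun r : ℚ => (r : ℝ)) hz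
    push_cast at h1
    rw [← h1, Fintype.sum_sum_type, Fintype.sum_sum_type]
    simp only [hYdef, mul_add, sum_add_distrib, add_assoc]
    congr 1
    · rw [Fintype.sum_prod_type]
      refine sum_congr rfl fun z _ => ?_
      show ∑ l, (m (z, l) : ℝ) * (t (Sum.inl z) : ℝ) = _
      rw [← sum_mul]
      congr 1
      simp only [sm, AddMonoidHom.coe_mk, ZeroHom.coe_mk, Sum.elim_inl]
      push_cast
      rfl
    · congr 1
      · rw [Fintype.sum_prod_type, sum_eq_single x]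
        · refine sum_congr rfl fun l _ => ?_
          simp [sm]
        · intro z _ hz
          refine sum_eq_zero fun l _ => ?_
          simp [hz]
        · simp
      · rw [Fintype.sum_prod_type, sum_eq_single y]
        · refine sum_congr rfl fun l _ => ?_
          simp [sm]
        · intro z _ hz
          refine sum_eq_zero fun l _ => ?_
          simp [hz]
        · simp
  have hAnn' : S.Ann F fun i => -Y i := by
    intro m hm
    obtain ⟨z, hz⟩ := hAnn m hm
    refine ⟨-z, ?_⟩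
    push_cast
    rw [← hz, ← sum_neg_distrib]
    exact sum_congr rfl fun i _ => by ring
  exact count_le (Y := fun z l => Y (z, l)) (S.good F hF hn (y := Y) hAnn)
    (S.good F hF hn (y := fun i => -Y i) hAnn') hxy
    (fun z => (t (Sum.inl z) : ℝ)) (fun l => (t (Sum.inr (Sum.inl l)) : ℝ))
    (fun l => (t (Sum.inr (Sum.inr l)) : ℝ)) (by
      intro z l
      simp only [hYdef]
      congr) b

open Classical in
/-- Relations of degree one through given exponents at two points. -/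
theorem pair [Nonempty X] (hF : (F : Filter ℕ) ≤ atTop) (hn : 0 < n) {x y : X} (hxy : x ≠ y) :
    ∃ σ : Equiv.Perm (Fin n), ∀ i, ∃ c ∈ S.R F, (∀ l, c (x, l) = if l = i then 1 else 0) ∧
      (∀ l, c (y, l) = if l = σ i then 1 else 0) ∧ ∀ z, ∑ l, c (z, l) = 1 := by
  set 𝒮 : AddSubgroup (X ⊕ (Fin n ⊕ Fin n) → ℤ) := (S.R F).map (sm x y) with h𝒮
  obtain ⟨σ, hσ⟩ := dedekind (mapL 𝒮) (mapR 𝒮) (by
    intro t b
    have h3 := S.key F hF hn hxy t.1 t.2 b
    have e1 : ∀ l, mapL 𝒮 l t = (t.1 (Sum.inr (Sum.inl l)) : ℝ) := fun l => rfl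
    have e2 : ∀ l, mapR 𝒮 l t =
        -(t.1 (Sum.inr (Sum.inr l)) : ℝ) - ∑ z, (t.1 (Sum.inl z) : ℝ) := by
      intro l
      show ((-t.1 (Sum.inr (Sum.inr l)) - ∑ z, t.1 (Sum.inl z) : ℚ) : ℝ) = _
      push_cast
      rfl
    have e3 : (univ.filter fun l => ∃ z : ℤ, mapR 𝒮 l t - b = z) =
        univ.filter fun l => ∃ k : ℤ, (-(t.1 (Sum.inr (Sum.inr l)) : ℝ) -
          ∑ z, (t.1 (Sum.inl z) : ℝ)) - b = k := by
      refine filter_congr fun l _ => ?_
      rw [e2]
    exact h3.trans_eq (congrArg card e3.symm))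
  refine ⟨σ, fun i => ?_⟩
  by_contra hno
  push Not at hno
  set v : X ⊕ (Fin n ⊕ Fin n) → ℤ := Sum.elim (fun _ => 1)
    (Sum.elim (fun l => if l = i then 1 else 0) fun l => if l = σ i then 1 else 0) with hv
  have hvn : v ∉ 𝒮 := by
    rintro ⟨c, hc, hc1⟩
    obtain ⟨z, hz⟩ := hno c hc (fun l => congrFun hc1 (Sum.inr (Sum.inl l)))
      (fun l => congrFun hc1 (Sum.inr (Sum.inr l)))
    exact hz (congrFun hc1 (Sum.inl z))
  obtain ⟨t, hint, hnint⟩ := exists_char 𝒮 v hvn
  obtain ⟨z, hz⟩ := hσ i ⟨t, hint⟩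
  apply hnint
  refine ⟨z, ?_⟩
  have e1 : ∑ j, (v j : ℚ) * t j =
      t (Sum.inr (Sum.inl i)) - (-t (Sum.inr (Sum.inr (σ i))) - ∑ z, t (Sum.inl z)) := by
    rw [Fintype.sum_sum_type, Fintype.sum_sum_type]
    simp only [hv, Sum.elim_inl, Sum.elim_inr, Int.cast_one, one_mul, Int.cast_ite, Int.cast_zero,
      ite_mul, zero_mul, sum_ite_eq', mem_univ, if_true]
    ring
  rw [e1]
  have h4 : ((t (Sum.inr (Sum.inl i)) : ℚ) : ℝ) -
      ((-t (Sum.inr (Sum.inr (σ i))) - ∑ z, t (Sum.inl z) : ℚ) : ℝ) = (z : ℝ) := hz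
  exact_mod_cast h4

end Seq

end Pool.Agent.N858.PC
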