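import Pool.Agent.N858.PC.Gordan
import Pool.Agent.N858.PC.Lattice

set_option autoImplicit false

/-!
Sequences of exponents all of whose conjugates satisfy the inequalities for line subbundles: the
lattice of their relations.
-/

open Finset Filter

namespace Pool.Agent.N858.PC

/-- A sequence of exponents `e j = E j + ε j` with rough denominators, all of whose conjugates
satisfy the inequalities for line subbundles. -/
structure Seq (X : Type*) [Fintype X] (n : ℕ) where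
  e : ℕ → X → Fin n → ℚ
  E : ℕ → X → Fin n → ℚ
  ε : ℕ → X → ℚ
  q : ℕ → ℕ
  N : ℕ → ℕ
  hq : ∀ j, 0 < q j
  hN : ∀ j, 0 < N j
  rough : ∀ j, ∀ p : ℕ, p.Prime → p ∣ q j → j < p
  he : ∀ j x l, e j x l = E j x l + ε j x
  hE : ∀ j x l, ∃ z : ℤ, (q j : ℚ) * E j x l = z
  hε : ∀ j, ∃ k : ℤ, (n : ℚ) * ∑ x, ε j x = k
  htr : ∀ j, ∃ w : ℤ, ∑ x, ∑ l, e j x l = w
  hSS : ∀ j (a : ℤ), IsCoprime a (N j : ℤ) → LineSS fun x l => (a : ℝ) * e j x l

namespace Seq

variable {X : Type*} [Fintype X] {n : ℕ} (S : Seq X n) (F : Ultrafilter ℕ)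

/-- The lattice of relations. -/
def R : AddSubgroup (X × Fin n → ℤ) := Rel F fun j t => S.E j t.1 t.2

/-- The annihilator of the relations. -/
def Ann (y : X × Fin n → ℝ) : Prop := ∀ m ∈ S.R F, ∃ z : ℤ, ∑ i, (m i : ℝ) * y i = z

lemma traceE (j : ℕ) : ∃ k : ℤ, ∑ x, ∑ l, S.E j x l = k := by
  obtain ⟨w, hw⟩ := S.htr j
  obtain ⟨k, hk⟩ := S.hε j
  refine ⟨w - k, ?_⟩
  push_cast
  rw [← hw, ← hk]
  simp only [S.he, sum_add_distrib, sum_const, card_univ, Fintype.card_fin, nsmul_eq_mul, mul_sum]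
  ring

lemma trace_mem : (fun _ => 1) ∈ S.R F := by
  refine Eventually.of_forall fun j => ?_
  obtain ⟨k, hk⟩ := S.traceE j
  refine ⟨k, ?_⟩
  rw [← hk, Fintype.sum_prod_type]
  simp

lemma ann_trace {y : X × Fin n → ℝ} (hy : S.Ann F y) : ∃ k : ℤ, ∑ x, ∑ l, y (x, l) = k := by
  obtain ⟨k, hk⟩ := hy _ (S.trace_mem F)
  refine ⟨k, ?_⟩
  rw [← hk, Fintype.sum_prod_type]
  simp

variable [DecidableEq X]

lemma apx (hF : (F : Filter ℕ) ≤ atTop) (hn : 0 < n) {y : X × Fin n → ℝ} (hy : S.Ann F y) {δ : ℝ}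
    (hδ : 0 < δ) : ∀ᶠ j in (F : Filter ℕ), ∃ a : ℤ, IsCoprime a (S.N j : ℤ) ∧
      IsCoprime a (n : ℤ) ∧ ∃ w : X → Fin n → ℤ, ∀ x l,
        |(a : ℝ) * S.E j x l - y (x, l) - w x l| < δ := by
  have h := approx hF (E := fun j (t : X × Fin n) => S.E j t.1 t.2) (q := S.q)
    (fun j i => S.hE j i.1 i.2) S.rough y hy δ hδ
  filter_upwards [h] with j hj
  obtain ⟨a, ha, hw⟩ := hj (n * (S.N j * S.q j)) (Nat.mul_pos hn (Nat.mul_pos (S.hN j) (S.hq j))) (by
    intro i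
    obtain ⟨z, hz⟩ := S.hE j i.1 i.2
    refine ⟨n * S.N j * z, ?_⟩
    push_cast
    rw [← hz]
    ring)
  choose w hw using hw
  refine ⟨a, ?_, ?_, fun x l => w (x, l), fun x l => hw (x, l)⟩
  · refine IsCoprime.of_isCoprime_of_dvd_right ha ?_
    push_cast
    exact ⟨n * S.q j, by ring⟩
  · refine IsCoprime.of_isCoprime_of_dvd_right ha ?_
    push_cast
    exact dvd_mul_right _ _

lemma eps_int [Nonempty X] (hF : (F : Filter ℕ) ≤ atTop) (hn : 0 < n) :
    ∀ᶠ j in (F : Filter ℕ), ∃ k : ℤ, ∑ x, S.ε j x = k := by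
  have hn' : (0 : ℝ) < n := by exact_mod_cast hn
  have hX : (0 : ℝ) < Fintype.card X := by exact_mod_cast Fintype.card_pos
  have hnX : (0 : ℝ) < n * Fintype.card X := mul_pos hn' hX
  have h0 : S.Ann F (fun _ => 0) := fun m _ => ⟨0, by simp⟩
  filter_upwards [S.apx F hF hn h0 (δ := 1 / (2 * (n * Fintype.card X))) (by positivity)] with j hj
  obtain ⟨a, haN, han, w, hw⟩ := hj
  by_contra hno
  obtain ⟨K, hK⟩ := S.hε j
  have hKr : (n : ℝ) * ∑ x, (S.ε j x : ℝ) = K := by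
    have := congrArg (fun r : ℚ => (r : ℝ)) hK
    push_cast at this
    exact this
  set T : ℝ := a * ∑ x, (S.ε j x : ℝ) with hT
  set m : ℤ := ⌊T⌋ with hm
  have h1 : (m : ℝ) ≤ T := Int.floor_le T
  have h2 : T < m + 1 := Int.lt_floor_add_one T
  have h3 : (n : ℝ) * (T - m) = ((a * K - n * m : ℤ) : ℝ) := by
    push_cast
    rw [← hKr, hT]
    ring
  have h4 : 0 < a * K - n * m := by
    have h5 : 0 ≤ a * K - n * m := by
      have : (0 : ℝ) ≤ ((a * K - n * m : ℤ) : ℝ) := by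
        rw [← h3]
        exact mul_nonneg hn'.le (by linarith)
      exact_mod_cast this
    refine lt_of_le_of_ne h5 fun h6 => hno ?_
    have h7 : (n : ℤ) ∣ a * K := ⟨m, by linarith⟩
    have h8 : (n : ℤ) ∣ K := han.symm.dvd_of_dvd_mul_left h7
    obtain ⟨k, hk⟩ := h8
    refine ⟨k, ?_⟩
    rw [hk] at hK
    push_cast at hK
    have hn'' : (n : ℚ) ≠ 0 := by exact_mod_cast hn.ne'
    exact mul_left_cancel₀ hn'' hK
  have h5 : 1 ≤ (n : ℝ) * (T - m) := by
    rw [h3]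
    exact_mod_cast h4
  have h6 : (n : ℝ) * (Fintype.card X * (1 / (2 * (n * Fintype.card X)))) = 1 / 2 := by
    field_simp
  have h7 : (n : ℝ) * Fintype.card X * (1 / (2 * (n * Fintype.card X))) = 1 / 2 := by
    rw [mul_assoc]; exact h6
  have hstep := step hn (y := fun _ _ => 0) (S.hSS j a haN) (S.he j) (w := w) (fun x l => hw x l)
    (by rw [h7]; norm_num) (S.traceE j) ⟨0, by simp⟩ (fun _ => 0) m (by
      simp only [sum_const_zero, add_zero]
      have : (n : ℝ) * m < n * (T - Fintype.card X * (1 / (2 * (n * Fintype.card X)))) := by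
        rw [mul_sub, h6]
        linarith
      exact lt_of_mul_lt_mul_left this hn'.le)
  simp only [sub_zero, Int.floor_zero, sum_const_zero, Int.cast_zero, zero_add] at hstep
  have : (n : ℝ) * (1 + m) ≤ n * T := by linarith
  have := le_of_mul_le_mul_left this hn'
  linarith

/-- All points of the annihilator satisfy the inequality for line subbundles. -/
lemma good [Nonempty X] (hF : (F : Filter ℕ) ≤ atTop) (hn : 0 < n) {y : X × Fin n → ℝ}
    (hy : S.Ann F y) : LineSS fun x l => y (x, l) := by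
  intro β hβ
  have hn' : (0 : ℝ) < n := by exact_mod_cast hn
  have hX : (0 : ℝ) < Fintype.card X := by exact_mod_cast Fintype.card_pos
  have hnX : (0 : ℝ) < n * Fintype.card X := mul_pos hn' hX
  set δ : ℝ := min (1 / (n * Fintype.card X)) ((∑ x, β x) / (2 * Fintype.card X)) with hδ
  have hδ0 : 0 < δ := by
    rw [hδ]
    exact lt_min (by positivity) (by positivity)
  have h1 : (n : ℝ) * Fintype.card X * δ ≤ 1 := by
    calc (n : ℝ) * Fintype.card X * δ ≤ (n : ℝ) * Fintype.card X * (1 / (n * Fintype.card X)) := by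
          have := min_le_left (1 / ((n : ℝ) * Fintype.card X)) ((∑ x, β x) / (2 * Fintype.card X))
          gcongr
      _ = 1 := by field_simp
  have h2 : Fintype.card X * δ ≤ (∑ x, β x) / 2 := by
    calc Fintype.card X * δ ≤ Fintype.card X * ((∑ x, β x) / (2 * Fintype.card X)) := by
          have := min_le_right (1 / ((n : ℝ) * Fintype.card X)) ((∑ x, β x) / (2 * Fintype.card X))
          gcongr
      _ = _ := by field_simp
  obtain ⟨j, ⟨a, ha, -, w, hw⟩, ⟨k, hk⟩⟩ := ((S.apx F hF hn hy hδ0).and (S.eps_int F hF hn)).exists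
  have hk' : ∑ x, (S.ε j x : ℝ) = k := by
    have := congrArg (fun r : ℚ => (r : ℝ)) hk
    push_cast at this
    exact this
  have hstep := step hn (y := fun x l => y (x, l)) (S.hSS j a ha) (S.he j) hw h1 (S.traceE j)
    (S.ann_trace F hy) β (a * k) (by
      rw [hk']
      push_cast
      linarith)
  rw [hk'] at hstep
  push_cast at hstep ⊢
  linarith

omit [DecidableEq X] in
/-- Characters separate the elements outside of a subgroup of `ℤ ^ J` from it. -/
lemma exists_char {J : Type*} [Fintype J] [DecidableEq J] (𝒮 : AddSubgroup (J → ℤ)) (v : J → ℤ)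
    (hv : v ∉ 𝒮) : ∃ t : J → ℚ, (∀ s ∈ 𝒮, ∃ z : ℤ, ∑ x, (s x : ℚ) * t x = z) ∧
      ¬ ∃ z : ℤ, ∑ x, (v x : ℚ) * t x = z := by
  have hne : (QuotientAddGroup.mk v : (J → ℤ) ⧸ 𝒮) ≠ 0 := by
    intro h
    exact hv ((QuotientAddGroup.eq_zero_iff _).1 h)
  obtain ⟨χ, hχ⟩ := CharacterModule.exists_character_apply_ne_zero_of_ne_zero hne
  have hrep : ∀ x : J, ∃ t : ℚ, (t : AddCircle (1 : ℚ)) =
      χ (QuotientAddGroup.mk (Pi.single x (1 : ℤ))) := fun x =>
    QuotientAddGroup.mk_surjective _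
  choose t ht using hrep
  have hχs : ∀ v : J → ℤ, χ (QuotientAddGroup.mk v) = ((∑ x, (v x : ℚ) * t x : ℚ) : AddCircle (1 : ℚ)) := by
    intro v
    have h1 : v = ∑ x, v x • (Pi.single x (1 : ℤ) : J → ℤ) := by
      funext y
      rw [Finset.sum_apply, sum_eq_single y]
      · simp
      · intro x _ hxy
        simp [Pi.single_eq_of_ne (Ne.symm hxy)]
      · simp
    have h2 : (QuotientAddGroup.mk v : (J → ℤ) ⧸ 𝒮) =
        ∑ x, v x • (QuotientAddGroup.mk (Pi.single x (1 : ℤ)) : (J → ℤ) ⧸ 𝒮) := by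
      conv_lhs => rw [h1]
      have := map_sum (QuotientAddGroup.mk' 𝒮) (fun x => v x • (Pi.single x (1 : ℤ) : J → ℤ)) univ
      simpa only [map_zsmul, QuotientAddGroup.coe_mk'] using this
    rw [h2, map_sum]
    have h3 : ((∑ x, (v x : ℚ) * t x : ℚ) : AddCircle (1 : ℚ)) =
        ∑ x, (((v x : ℚ) * t x : ℚ) : AddCircle (1 : ℚ)) :=
      map_sum (QuotientAddGroup.mk' (AddSubgroup.zmultiples (1 : ℚ))) _ _
    rw [h3]
    refine sum_congr rfl fun x _ => ?_
    rw [map_zsmul, ← ht, ← zsmul_eq_mul]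
    exact (AddCircle.coe_zsmul (1 : ℚ)).symm
  refine ⟨t, fun s hs => ?_, ?_⟩
  · have h1 : (QuotientAddGroup.mk s : (J → ℤ) ⧸ 𝒮) = 0 := (QuotientAddGroup.eq_zero_iff _).2 hs
    have h2 := hχs s
    rw [h1, map_zero] at h2
    obtain ⟨z, hz⟩ := (AddCircle.coe_eq_zero_iff (1 : ℚ)).1 h2.symm
    exact ⟨z, by rw [← hz]; simp⟩
  · rintro ⟨z, hz⟩
    apply hχ
    rw [hχs, AddCircle.coe_eq_zero_iff]
    exact ⟨z, by simp [hz]⟩

/-- After the deletion of less than `n` exponents there remains a relation of degree one. -/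
lemma degOne [Nonempty X] (hF : (F : Filter ℕ) ≤ atTop) (hn : 0 < n) (Ω : Finset (X × Fin n))
    (hΩ : Ω.card < n) :
    ∃ c ∈ S.R F, (∀ t ∈ Ω, c t = 0) ∧ ∀ x, ∑ l, c (x, l) = 1 := by
  by_contra hno
  push Not at hno
  have hn' : (0 : ℝ) < n := by exact_mod_cast hn
  let s : (X × Fin n → ℤ) →+ (X ⊕ (X × Fin n) → ℤ) :=
    { toFun := fun c => Sum.elim (fun x => ∑ l, c (x, l)) (fun i => if i ∈ Ω then c i else 0)
      map_zero' := by funext x; rcases x with x | i <;> simp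
      map_add' := by
        intro c d; funext x
        rcases x with x | i
        · simp [sum_add_distrib]
        · simp only [Sum.elim_inr, Pi.add_apply]
          split_ifs <;> simp }
  set 𝒮 : AddSubgroup (X ⊕ (X × Fin n) → ℤ) := (S.R F).map s with h𝒮
  have hv : (Sum.elim (fun _ => 1) fun _ => 0 : X ⊕ (X × Fin n) → ℤ) ∉ 𝒮 := by
    rintro ⟨c, hc, hc1⟩
    obtain ⟨x, hx⟩ := hno c hc fun t ht => by
      have := congrFun hc1 (Sum.inr t)
      simpa [s, ht] using this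
    exact hx (congrFun hc1 (Sum.inl x))
  obtain ⟨t, hint, hnint⟩ := exists_char 𝒮 _ hv
  simp only [Fintype.sum_sum_type, Sum.elim_inl, Sum.elim_inr, Int.cast_one, one_mul,
    Int.cast_zero, zero_mul, sum_const_zero, add_zero] at hnint
  have hAnn : S.Ann F (fun i => (t (Sum.inl i.1) : ℝ) +
      if i ∈ Ω then (t (Sum.inr i) : ℝ) else 0) := by
    intro m hm
    obtain ⟨z, hz⟩ := hint (s m) ⟨m, hm, rfl⟩
    refine ⟨z, ?_⟩
    have h1 := congrArg (fun r : ℚ => (r : ℝ)) hz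
    push_cast at h1
    rw [← h1, Fintype.sum_sum_type]
    simp only [mul_add, sum_add_distrib]
    congr 1
    · rw [Fintype.sum_prod_type]
      refine sum_congr rfl fun x _ => ?_
      show ∑ l, (m (x, l) : ℝ) * (t (Sum.inl x) : ℝ) = _
      rw [← sum_mul]
      congr 1
      simp only [s, AddMonoidHom.coe_mk, ZeroHom.coe_mk, Sum.elim_inl]
      push_cast
      rfl
    · refine sum_congr rfl fun i _ => ?_
      simp only [s, AddMonoidHom.coe_mk, ZeroHom.coe_mk, Sum.elim_inr]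
      split_ifs <;> simp
  have hAnn' : S.Ann F (fun i => -((t (Sum.inl i.1) : ℝ) +
      if i ∈ Ω then (t (Sum.inr i) : ℝ) else 0)) := by
    intro m hm
    obtain ⟨z, hz⟩ := hAnn m hm
    refine ⟨-z, ?_⟩
    push_cast
    rw [← hz, ← sum_neg_distrib]
    exact sum_congr rfl fun i _ => by ring
  have hgood := S.good F hF hn hAnn
  have hgood' := S.good F hF hn hAnn'
  obtain ⟨x₀⟩ := ‹Nonempty X›
  set T : ℝ := ∑ x, (t (Sum.inl x) : ℝ) with hT
  have hfl : (⌊T⌋ : ℝ) < T := by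
    refine lt_of_le_of_ne (Int.floor_le T) fun h => hnint ⟨⌊T⌋, ?_⟩
    have : ((∑ x, t (Sum.inl x) : ℚ) : ℝ) = ((⌊T⌋ : ℚ) : ℝ) := by
      push_cast
      rw [← hT, h]
    exact_mod_cast this
  have hfl' := Int.lt_floor_add_one T
  have hΩsum : ∀ g : X → Fin n → ℤ, ∑ x, ∑ l, (if (x, l) ∈ Ω then g x l else 0) =
      ∑ i ∈ Ω, g i.1 i.2 := by
    intro g
    rw [← Fintype.sum_prod_type' (fun x l => if (x, l) ∈ Ω then g x l else 0)]
    simp
  have hΩsumR : ∀ g : X → Fin n → ℝ, ∑ x, ∑ l, (if (x, l) ∈ Ω then g x l else 0) =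
      ∑ i ∈ Ω, g i.1 i.2 := by
    intro g
    rw [← Fintype.sum_prod_type' (fun x l => if (x, l) ∈ Ω then g x l else 0)]
    simp
  have h1 := hgood (fun x => (t (Sum.inl x) : ℝ) - if x = x₀ then (⌊T⌋ : ℝ) else 0) (by
    rw [sum_sub_distrib, sum_ite_eq', if_pos (mem_univ _)]
    linarith)
  have h1' := hgood' (fun x => -(t (Sum.inl x) : ℝ) + if x = x₀ then ((⌊T⌋ : ℝ) + 1) else 0) (by
    rw [sum_add_distrib, sum_ite_eq', if_pos (mem_univ _), sum_neg_distrib]
    linarith)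
  simp only at h1 h1'
  have h2 : ∀ (x : X) (l : Fin n), ⌊(t (Sum.inl x) : ℝ) +
      (if (x, l) ∈ Ω then (t (Sum.inr (x, l)) : ℝ) else 0) -
      ((t (Sum.inl x) : ℝ) - if x = x₀ then (⌊T⌋ : ℝ) else 0)⌋ =
      (if (x, l) ∈ Ω then ⌊(t (Sum.inr (x, l)) : ℝ)⌋ else 0) + if x = x₀ then ⌊T⌋ else 0 := by
    intro x l
    have : (t (Sum.inl x) : ℝ) + (if (x, l) ∈ Ω then (t (Sum.inr (x, l)) : ℝ) else 0) -
        ((t (Sum.inl x) : ℝ) - if x = x₀ then (⌊T⌋ : ℝ) else 0) =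
        (if (x, l) ∈ Ω then (t (Sum.inr (x, l)) : ℝ) else 0) +
          ((if x = x₀ then ⌊T⌋ else 0 : ℤ) : ℝ) := by
      split_ifs <;> push_cast <;> ring
    rw [this, Int.floor_add_intCast]
    congr 1
    split_ifs <;> simp
  have h2' : ∀ (x : X) (l : Fin n), ⌊-((t (Sum.inl x) : ℝ) +
      (if (x, l) ∈ Ω then (t (Sum.inr (x, l)) : ℝ) else 0)) -
      (-(t (Sum.inl x) : ℝ) + if x = x₀ then ((⌊T⌋ : ℝ) + 1) else 0)⌋ =
      (if (x, l) ∈ Ω then ⌊-(t (Sum.inr (x, l)) : ℝ)⌋ else 0) +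
        if x = x₀ then -(⌊T⌋ + 1) else 0 := by
    intro x l
    have : -((t (Sum.inl x) : ℝ) + (if (x, l) ∈ Ω then (t (Sum.inr (x, l)) : ℝ) else 0)) -
        (-(t (Sum.inl x) : ℝ) + if x = x₀ then ((⌊T⌋ : ℝ) + 1) else 0) =
        (if (x, l) ∈ Ω then -(t (Sum.inr (x, l)) : ℝ) else 0) +
          ((if x = x₀ then -(⌊T⌋ + 1) else 0 : ℤ) : ℝ) := by
      split_ifs <;> push_cast <;> ring
    rw [this, Int.floor_add_intCast]
    congr 1
    split_ifs <;> simp
  simp only [h2, sum_add_distrib, hΩsum, hΩsumR (fun x l => (t (Sum.inr (x, l)) : ℝ)),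
    sum_const, card_univ, Fintype.card_fin, nsmul_eq_mul, ← mul_sum] at h1
  simp only [h2', sum_add_distrib, sum_neg_distrib, hΩsum,
    hΩsumR (fun x l => (t (Sum.inr (x, l)) : ℝ)),
    sum_const, card_univ, Fintype.card_fin, nsmul_eq_mul, ← mul_sum] at h1'
  rw [← hT] at h1 h1'
  have h3 : ∀ r : ℝ, -1 ≤ ⌊r⌋ + ⌊-r⌋ := by
    intro r
    rw [Int.floor_neg]
    have := Int.ceil_le_floor_add_one r
    omega
  have h4 : -(Ω.card : ℤ) ≤ ∑ i ∈ Ω, ⌊(t (Sum.inr (i.1, i.2)) : ℝ)⌋ +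
      ∑ i ∈ Ω, ⌊-(t (Sum.inr (i.1, i.2)) : ℝ)⌋ := by
    rw [← sum_add_distrib]
    calc -(Ω.card : ℤ) = ∑ _i ∈ Ω, (-1 : ℤ) := by simp
      _ ≤ _ := sum_le_sum fun i _ => h3 _
  have h5 : -(Ω.card : ℝ) ≤ ((∑ i ∈ Ω, ⌊(t (Sum.inr (i.1, i.2)) : ℝ)⌋ : ℤ) : ℝ) +
      ((∑ i ∈ Ω, ⌊-(t (Sum.inr (i.1, i.2)) : ℝ)⌋ : ℤ) : ℝ) := by
    exact_mod_cast h4
  rw [Int.cast_add] at h1 h1'
  push_cast at h1 h1' h5
  simp only [sum_ite_eq', mem_univ, if_true] at h1 h1'
  have h6 : (n : ℝ) ≤ Ω.card := by linarith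
  have h7 : n ≤ Ω.card := by exact_mod_cast h6
  omega

/-- The rational span of the relations. -/
def U : Submodule ℚ (X × Fin n → ℚ) := Submodule.span ℚ {v | ∃ c ∈ S.R F, v = fun i => (c i : ℚ)}

omit [DecidableEq X] in
lemma clear {P : X × Fin n → ℚ} (hP : P ∈ S.U F) :
    ∃ d : ℕ, 0 < d ∧ ∃ c ∈ S.R F, ∀ i, (d : ℚ) * P i = c i := by
  unfold U at hP
  induction hP using Submodule.span_induction with
  | mem x hx =>
    obtain ⟨c, hc, rfl⟩ := hx
    exact ⟨1, one_pos, c, hc, fun i => by simp⟩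
  | zero => exact ⟨1, one_pos, 0, (S.R F).zero_mem, fun i => by simp⟩
  | add x y _ _ h1 h2 =>
    obtain ⟨d, hd, c, hc, h1⟩ := h1
    obtain ⟨d', hd', c', hc', h2⟩ := h2
    refine ⟨d * d', Nat.mul_pos hd hd', (d' : ℤ) • c + (d : ℤ) • c',
      (S.R F).add_mem ((S.R F).zsmul_mem hc _) ((S.R F).zsmul_mem hc' _), fun i => ?_⟩
    simp only [Pi.add_apply, Pi.smul_apply, smul_eq_mul]
    push_cast
    rw [← h1, ← h2]
    ring
  | smul r x _ h1 =>
    obtain ⟨d, hd, c, hc, h1⟩ := h1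
    refine ⟨d * r.den, Nat.mul_pos hd r.den_pos, r.num • c, (S.R F).zsmul_mem hc _, fun i => ?_⟩
    simp only [Pi.smul_apply, smul_eq_mul]
    push_cast
    rw [← h1, ← Rat.den_mul_eq_num]
    ring

/-- The class of a coordinate vector. -/
noncomputable def cl (t : X × Fin n) : (X × Fin n → ℚ) ⧸ S.U F := (S.U F).mkQ (Pi.single t 1)

lemma sum_cl (p : X × Fin n → ℚ) : ∑ t, p t • S.cl F t = (S.U F).mkQ p := by
  unfold cl
  simp only [← map_smul, ← map_sum]
  congr 1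
  funext i
  rw [Finset.sum_apply, sum_eq_single i]
  · simp
  · intro t _ hti
    simp [Pi.single_eq_of_ne (Ne.symm hti)]
  · simp

/-- Linear forms on the quotient give points of the annihilator. -/
lemma ann_of_form (f : ((X × Fin n → ℚ) ⧸ S.U F) →ₗ[ℚ] ℚ) (r : ℝ) :
    (∀ m ∈ S.R F, ∑ i, (m i : ℝ) * (r * (f (S.cl F i) : ℝ)) = 0) := by
  intro m hm
  have h1 : ∑ i, (m i : ℚ) * f (S.cl F i) = 0 := by
    have h2 : f (∑ i, (m i : ℚ) • S.cl F i) = 0 := by
      rw [S.sum_cl F (fun i => (m i : ℚ))]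
      have : (S.U F).mkQ (fun i => (m i : ℚ)) = 0 := by
        rw [Submodule.mkQ_apply, Submodule.Quotient.mk_eq_zero]
        exact Submodule.subset_span ⟨m, hm, rfl⟩
      rw [this, map_zero]
    simpa [map_sum, map_smul] using h2
  have h3 := congrArg (fun r : ℚ => (r : ℝ)) h1
  push_cast at h3
  calc ∑ i, (m i : ℝ) * (r * (f (S.cl F i) : ℝ)) = r * ∑ i, (m i : ℝ) * (f (S.cl F i) : ℝ) := by
        rw [mul_sum]
        exact sum_congr rfl fun i _ => by ring
    _ = 0 := by rw [h3, mul_zero]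

/-- After the deletion of less than `n` exponents there remains a nonnegative relation. -/
lemma cover [Nonempty X] (hF : (F : Filter ℕ) ≤ atTop) (hn : 0 < n) (Ω : Finset (X × Fin n))
    (hΩ : Ω.card < n) : ∃ (M : ℕ) (p : X × Fin n → ℕ), 1 ≤ M ∧ (∀ t ∈ Ω, p t = 0) ∧
      (∀ x, ∑ l, p (x, l) = M) ∧ (fun t => (p t : ℤ)) ∈ S.R F := by
  have hA : ∀ x : X, (univ.filter fun l : Fin n => (x, l) ∉ Ω).Nonempty := by
    intro x
    by_contra h
    rw [not_nonempty_iff_eq_empty, filter_eq_empty_iff] at h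
    have h1 : (univ.image fun l : Fin n => (x, l)) ⊆ Ω := by
      intro t ht
      obtain ⟨l, -, rfl⟩ := mem_image.1 ht
      exact not_not.1 (h (mem_univ l))
    have h2 := card_le_card h1
    rw [card_image_of_injective _ (fun l l' h => (Prod.mk.inj h).2), card_univ,
      Fintype.card_fin] at h2
    omega
  rcases gordan_prod (fun x => univ.filter fun l : Fin n => (x, l) ∉ Ω) hA
    (fun x l => S.cl F (x, l)) with ⟨p, hp0, hpΩ, hp1, hp⟩ | ⟨f, s, hs, hf⟩
  · have hmem : (fun t : X × Fin n => p t.1 t.2) ∈ S.U F := by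
      rw [← Submodule.ker_mkQ (S.U F), LinearMap.mem_ker, ← S.sum_cl F, Fintype.sum_prod_type]
      exact hp
    obtain ⟨d, hd, c, hc, hdc⟩ := S.clear F hmem
    have hc0 : ∀ t, 0 ≤ c t := by
      intro t
      have : (0 : ℚ) ≤ c t := by
        rw [← hdc]
        exact mul_nonneg (by positivity) (hp0 _ _)
      exact_mod_cast this
    have hct : ∀ t, (((c t).toNat : ℕ) : ℤ) = c t := fun t => Int.toNat_of_nonneg (hc0 t)
    refine ⟨d, fun t => (c t).toNat, hd, fun t ht => ?_, fun x => ?_, ?_⟩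
    · have h1 : p t.1 t.2 = 0 := by
        apply hpΩ
        simp only [mem_filter, mem_univ, true_and, not_not]
        exact ht
      have h2 : (c t : ℚ) = 0 := by rw [← hdc, h1, mul_zero]
      have h3 : c t = 0 := by exact_mod_cast h2
      simp [h3]
    · have h1 : ∑ l, (c (x, l) : ℚ) = d := by
        simp only [← hdc, ← mul_sum, hp1, mul_one]
      have h2 : ∑ l, c (x, l) = d := by exact_mod_cast h1
      zify
      simp only [hct]
      exact h2
    · have : (fun t => (((c t).toNat : ℕ) : ℤ)) = c := funext hct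
      rw [this]
      exact hc
  · exfalso
    -- a small multiple of the linear form
    set B : ℝ := 1 + ∑ t, |(f (S.cl F t) : ℝ)| + ∑ x, |(s x : ℝ)| with hB
    have hB1 : 1 ≤ B := by
      have h1 : 0 ≤ ∑ t, |(f (S.cl F t) : ℝ)| := sum_nonneg fun _ _ => abs_nonneg _
      have h2 : 0 ≤ ∑ x, |(s x : ℝ)| := sum_nonneg fun _ _ => abs_nonneg _
      rw [hB]; linarith
    have hB0 : 0 < B := by linarith
    have hAnn : S.Ann F (fun t => B⁻¹ * (f (S.cl F t) : ℝ)) := fun m hm =>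
      ⟨0, by rw [S.ann_of_form F f _ m hm]; simp⟩
    have hgood := S.good F hF hn hAnn (fun x => B⁻¹ * (s x : ℝ)) (by
      rw [← mul_sum]
      have : (0 : ℝ) < ∑ x, (s x : ℝ) := by exact_mod_cast hs
      positivity)
    have htr : ∑ x, ∑ l, B⁻¹ * (f (S.cl F (x, l)) : ℝ) = 0 := by
      have := S.ann_of_form F f B⁻¹ _ (S.trace_mem F)
      rw [Fintype.sum_prod_type] at this
      simpa using this
    have h1 : ∀ x l, -(if (x, l) ∈ Ω then (1 : ℤ) else 0) ≤
        ⌊B⁻¹ * (f (S.cl F (x, l)) : ℝ) - B⁻¹ * (s x : ℝ)⌋ := by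
      intro x l
      rw [Int.le_floor, ← mul_sub]
      by_cases hx : (x, l) ∈ Ω
      · rw [if_pos hx]
        push_cast
        have h2 : |(f (S.cl F (x, l)) : ℝ)| ≤ ∑ t, |(f (S.cl F t) : ℝ)| :=
          single_le_sum (f := fun t => |(f (S.cl F t) : ℝ)|) (fun _ _ => abs_nonneg _) (mem_univ _)
        have h3 : |(s x : ℝ)| ≤ ∑ x, |(s x : ℝ)| :=
          single_le_sum (f := fun x => |(s x : ℝ)|) (fun _ _ => abs_nonneg _) (mem_univ _)
        have h4 := neg_abs_le (f (S.cl F (x, l)) : ℝ)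
        have h5 := le_abs_self (s x : ℝ)
        rw [← div_eq_inv_mul, le_div_iff₀ hB0]
        rw [hB]
        linarith
      · rw [if_neg hx]
        push_cast
        have h2 : (s x : ℝ) ≤ (f (S.cl F (x, l)) : ℝ) := by
          exact_mod_cast hf x l (by simpa using hx)
        rw [neg_zero]
        exact mul_nonneg (inv_nonneg.2 hB0.le) (by linarith)
    have h2 : -(Ω.card : ℤ) ≤ ∑ x, ∑ l, ⌊B⁻¹ * (f (S.cl F (x, l)) : ℝ) - B⁻¹ * (s x : ℝ)⌋ := by
      calc -(Ω.card : ℤ) = ∑ x, ∑ l, -(if (x, l) ∈ Ω then (1 : ℤ) else 0) := by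
            simp only [sum_neg_distrib]
            rw [← Fintype.sum_prod_type' (fun x l => if (x, l) ∈ Ω then (1 : ℤ) else 0)]
            simp
        _ ≤ _ := sum_le_sum fun x _ => sum_le_sum fun l _ => h1 x l
    have h3 : -(Ω.card : ℝ) ≤
        ((∑ x, ∑ l, ⌊B⁻¹ * (f (S.cl F (x, l)) : ℝ) - B⁻¹ * (s x : ℝ)⌋ : ℤ) : ℝ) := by
      exact_mod_cast h2
    have h4 : ((∑ x, ∑ l, ⌊B⁻¹ * (f (S.cl F (x, l)) : ℝ) - B⁻¹ * (s x : ℝ)⌋ : ℤ) : ℝ) + n ≤ 0 := by
      rw [← htr]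
      exact hgood
    have h5 : (n : ℝ) ≤ Ω.card := by linarith
    have h6 : n ≤ Ω.card := by exact_mod_cast h5
    omega

end Seq

end Pool.Agent.N858.PC
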